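import Mathlib

set_option autoImplicit false

namespace Pool.Agent.Lib.helper18

/-- type synonym carrying a new norm -/
def Renormed (H : Type*) (_N : H → ℝ) : Type _ := H

/-- Renorming lemma: an equivalent norm `N` on a Banach space `H` gives a Banach space `E`
with a continuous linear equivalence `e : E ≃L H` and `‖x‖ = N (e x)`. -/
theorem exists_renorm.{u} (𝕜 : Type) [RCLike 𝕜] (H : Type u) [NormedAddCommGroup H]
    [NormedSpace 𝕜 H] [CompleteSpace H] (N : H → ℝ) (c C : ℝ) (hc : 0 < c)
    (hlow : ∀ x, c * ‖x‖ ≤ N x) (hup : ∀ x, N x ≤ C * ‖x‖)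
    (hadd : ∀ x y, N (x + y) ≤ N x + N y)
    (hsmul : ∀ (a : 𝕜) x, N (a • x) = ‖a‖ * N x) :
    ∃ (E : Type u) (_ : NormedAddCommGroup E) (_ : NormedSpace 𝕜 E) (_ : CompleteSpace E)
      (e : E ≃L[𝕜] H), ∀ x, ‖x‖ = N (e x) := by
  let iA : AddCommGroup (Renormed H N) := inferInstanceAs (AddCommGroup H)
  let iM : Module 𝕜 (Renormed H N) := inferInstanceAs (Module 𝕜 H)
  let iN : Norm (Renormed H N) := ⟨fun x => N x⟩
  have core : NormedSpace.Core 𝕜 (Renormed H N) :=
    { norm_nonneg := fun x => le_trans (mul_nonneg hc.le (norm_nonneg (E := H) x)) (hlow x)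
      norm_smul := fun a x => hsmul a x
      norm_triangle := fun x y => hadd x y
      norm_eq_zero_iff := fun x => by
        constructor
        · intro h
          have h1 : c * ‖(show H from x)‖ ≤ 0 := le_trans (hlow x) (le_of_eq h)
          have h2 : ‖(show H from x)‖ ≤ 0 := by
            by_contra h3
            have := mul_pos hc (lt_of_not_ge h3)
            linarith
          exact norm_le_zero_iff.mp h2
        · intro h
          have h0 : N ((0 : 𝕜) • (0 : H)) = ‖(0 : 𝕜)‖ * N 0 := hsmul 0 0
          rw [zero_smul, norm_zero, zero_mul] at h0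
          rw [h]; exact h0 }
  let iG : NormedAddCommGroup (Renormed H N) := NormedAddCommGroup.ofCore core
  let iS : NormedSpace 𝕜 (Renormed H N) := NormedSpace.ofCore core
  let e0 : Renormed H N ≃ₗ[𝕜] H := LinearEquiv.refl 𝕜 H
  let e : Renormed H N ≃L[𝕜] H := e0.toContinuousLinearEquivOfBounds c⁻¹ C
    (fun x => by
      have := hlow x
      rw [le_inv_mul_iff₀ hc]
      exact this)
    (fun x => hup x)
  have hcomp : CompleteSpace (Renormed H N) :=
    (completeSpace_congr (e := e.toEquiv) e.isUniformEmbedding).2 inferInstance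
  exact ⟨Renormed H N, iG, iS, hcomp, e, fun x => rfl⟩

end Pool.Agent.Lib.helper18
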