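import Mathlib

namespace Pool.Agent.Lib.helper18.Las

open Filter Topology Metric

variable {E : Type*} [NormedAddCommGroup E] [NormedSpace ℂ E]

lemma pow_norm_lt [FiniteDimensional ℂ E] [Nontrivial E] (J : E →L[ℂ] E)
    (h : ∀ (l : ℂ) (v : E), 1 ≤ ‖l‖ → J v = l • v → v = 0) : ∃ N, 1 ≤ N ∧ ‖J ^ N‖ < 1 := by
  haveI : CompleteSpace E := FiniteDimensional.complete ℂ E
  have hs : spectralRadius ℂ J < (1 : NNReal) := by
    refine spectrum.spectralRadius_lt_of_forall_lt J fun z hz => ?_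
    by_contra hz1
    apply hz
    rw [spectrum.mem_resolventSet_iff, ContinuousLinearMap.isUnit_iff_bijective]
    have hinj : Function.Injective
        ((algebraMap ℂ (E →L[ℂ] E) z - J : E →L[ℂ] E) : E →ₗ[ℂ] E) := by
      rw [injective_iff_map_eq_zero]
      intro v hv
      refine h z v (by exact_mod_cast not_lt.1 hz1) ?_
      have : z • v - J v = 0 := by simpa [Algebra.algebraMap_eq_smul_one] using hv
      exact (sub_eq_zero.1 this).symm
    exact ⟨hinj, LinearMap.injective_iff_surjective.1 hinj⟩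
  have ht := spectrum.pow_nnnorm_pow_one_div_tendsto_nhds_spectralRadius J
  obtain ⟨N, hN1, hN2⟩ := ((ht.eventually (gt_mem_nhds hs)).and (eventually_ge_atTop 1)).exists
  refine ⟨N, hN2, ?_⟩
  by_contra hc
  have h1 : (1 : ENNReal) ≤ (‖J ^ N‖₊ : ENNReal) := by exact_mod_cast not_lt.1 hc
  have h2 : (1 : ENNReal) ≤ (‖J ^ N‖₊ : ENNReal) ^ (1 / (N : ℝ)) :=
    ENNReal.one_le_rpow h1 (by have : (0 : ℝ) < N := by exact_mod_cast hN2
                               positivity)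
  exact absurd hN1 (not_lt.2 (by simpa using h2))

theorem las (G : E → E) (p : E) (J : E →L[ℂ] E) (hp : G p = p) (hG : HasFDerivAt G J p)
    (N : ℕ) (hN : 1 ≤ N) (hJ : ‖J ^ N‖ < 1) :
    ∀ ε > 0, ∃ η > 0, ∀ z, ‖z - p‖ < η →
      (∀ k, ‖G^[k] z - p‖ < ε) ∧ Tendsto (fun k => G^[k] z) atTop (𝓝 p) := by
  have hit : ∀ j, HasFDerivAt G^[j] (J ^ j) p := fun j => hG.iterate hp j
  have hfix : ∀ j, G^[j] p = p := fun j => Function.iterate_fixed hp j
  set κ : ℝ := (‖J ^ N‖ + 1) / 2 with hκ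
  have hκ0 : 0 ≤ κ := by positivity
  have hκ1 : κ < 1 := by linarith
  obtain ⟨r, hr, hcon⟩ : ∃ r > 0, ∀ z, ‖z - p‖ < r → ‖G^[N] z - p‖ ≤ κ * ‖z - p‖ := by
    have h1 := (hit N).isLittleO.def (show 0 < (1 - ‖J ^ N‖) / 2 by linarith)
    obtain ⟨r, hr, h2⟩ := Metric.eventually_nhds_iff.1 h1
    refine ⟨r, hr, fun z hz => ?_⟩
    have h3 := h2 (show dist z p < r by rwa [dist_eq_norm])
    rw [hfix] at h3
    have h4 := (J ^ N).le_opNorm (z - p)
    calc ‖G^[N] z - p‖ = ‖(G^[N] z - p - (J ^ N) (z - p)) + (J ^ N) (z - p)‖ := by simp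
      _ ≤ _ := norm_add_le _ _
      _ ≤ _ := by rw [hκ]; linarith
  have hsmall : ∀ ε > 0, ∃ η > 0, ∀ z, ‖z - p‖ < η → ∀ j < N, ‖G^[j] z - p‖ < ε := by
    intro ε hε
    have : ∀ᶠ z in 𝓝 p, ∀ j ∈ Finset.range N, dist (G^[j] z) p < ε := by
      rw [eventually_all_finset]
      intro j _
      have := (hit j).continuousAt.tendsto
      rw [hfix] at this
      exact this.eventually (ball_mem_nhds p hε)
    obtain ⟨η, hη, h⟩ := Metric.eventually_nhds_iff.1 this
    exact ⟨η, hη, fun z hz j hj => by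
      rw [← dist_eq_norm] at hz ⊢; exact h hz j (Finset.mem_range.2 hj)⟩
  have hgeo : ∀ z, ‖z - p‖ < r → ∀ m, ‖(G^[N])^[m] z - p‖ ≤ κ ^ m * ‖z - p‖ := by
    intro z hz m
    induction m with
    | zero => simp
    | succ m ih =>
      rw [Function.iterate_succ_apply', pow_succ', mul_assoc]
      have : κ ^ m * ‖z - p‖ ≤ ‖z - p‖ :=
        mul_le_of_le_one_left (norm_nonneg _) (pow_le_one₀ hκ0 hκ1.le)
      exact (hcon _ (by linarith)).trans (by gcongr)
  have hdec : ∀ z k, G^[k] z = G^[k % N] ((G^[N])^[k / N] z) := fun z k => by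
    rw [← Function.iterate_mul, ← Function.iterate_add_apply, Nat.mod_add_div]
  intro ε hε
  obtain ⟨η, hη, h⟩ := hsmall ε hε
  refine ⟨min η r, lt_min hη hr, fun z hz => ⟨fun k => ?_, ?_⟩⟩
  · rw [hdec]
    refine h _ ?_ _ (Nat.mod_lt _ hN)
    have : κ ^ (k / N) * ‖z - p‖ ≤ ‖z - p‖ :=
      mul_le_of_le_one_left (norm_nonneg _) (pow_le_one₀ hκ0 hκ1.le)
    linarith [hgeo z (hz.trans_le (min_le_right _ _)) (k / N), hz.trans_le (min_le_left _ _)]
  · rw [Metric.tendsto_nhds]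
    intro ε' hε'
    obtain ⟨η', hη', h'⟩ := hsmall ε' hε'
    have t1 : Tendsto (fun k => κ ^ (k / N) * ‖z - p‖) atTop (𝓝 0) := by
      simpa using ((tendsto_pow_atTop_nhds_zero_of_lt_one hκ0 hκ1).comp
        (Nat.tendsto_div_const_atTop (by omega : N ≠ 0))).mul_const ‖z - p‖
    filter_upwards [t1.eventually (gt_mem_nhds hη')] with k hk
    rw [dist_eq_norm, hdec]
    exact h' _ ((hgeo z (hz.trans_le (min_le_right _ _)) _).trans_lt hk) _ (Nat.mod_lt _ hN)

end Pool.Agent.Lib.helper18.Las
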