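import Mathlib

namespace Pool.Agent.Lib.helper18.Brouwer

open Set Filter Topology CantorScheme

set_option maxHeartbeats 400000

def Ok (E : Set ℝ) : Prop := Perfect E ∧ E.Nonempty ∧ IsCompact E ∧ interior E = ∅

theorem split {E : Set ℝ} (h : Ok E) : ∃ C : Bool → Set ℝ, (∀ i, Ok (C i)) ∧
    C false ∪ C true = E ∧ Disjoint (C false) (C true) ∧
    ∀ i, Metric.diam (C i) ≤ 2 / 3 * Metric.diam E := by
  obtain ⟨hp, hn, hc, hi⟩ := h
  have ha := hc.sInf_mem hn
  have hb := hc.sSup_mem hn
  have hsub : E ⊆ Icc (sInf E) (sSup E) := fun y hy => ⟨csInf_le hc.bddBelow hy, le_csSup hc.bddAbove hy⟩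
  have hd : Metric.diam E = sSup E - sInf E := Real.diam_eq hc.isBounded
  set a := sInf E
  set b := sSup E
  have hab : a < b := by
    obtain ⟨y, hy, hya⟩ := (accPt_iff_nhds.1 (hp.acc a ha)) univ univ_mem
    exact (lt_of_le_of_ne (hsub hy.2).1 hya.symm).trans_le (hsub hy.2).2
  obtain ⟨c, hc1, hc2⟩ : ∃ c ∈ Ioo (a + (b - a) / 3) (a + 2 * (b - a) / 3), c ∉ E := by
    by_contra hcon
    push Not at hcon
    have h1 : Ioo (a + (b - a) / 3) (a + 2 * (b - a) / 3) ⊆ interior E :=
      interior_maximal hcon isOpen_Ioo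
    rw [hi] at h1
    exact h1 (show a + (b - a) / 2 ∈ _ from ⟨by linarith, by linarith⟩)
  have e0 : Iio c ∩ E = Iic c ∩ E := by
    ext y; constructor
    · exact fun h => ⟨Iio_subset_Iic_self h.1, h.2⟩
    · exact fun h => ⟨lt_of_le_of_ne (mem_Iic.1 h.1) fun e : y = c => hc2 (e ▸ h.2), h.2⟩
  have e1 : Ioi c ∩ E = Ici c ∩ E := by
    ext y; constructor
    · exact fun h => ⟨Ioi_subset_Ici_self h.1, h.2⟩
    · exact fun h => ⟨lt_of_le_of_ne (mem_Ici.1 h.1) fun e : c = y => hc2 (e ▸ h.2), h.2⟩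
  have i0 : ∀ U : Set ℝ, interior (U ∩ E) = ∅ := fun U =>
    subset_empty_iff.1 (hi ▸ interior_mono inter_subset_right)
  refine ⟨fun i => cond i (Ioi c ∩ E) (Iio c ∩ E), fun i => ?_, ?_, ?_, fun i => ?_⟩
  · cases i
    · exact ⟨⟨e0 ▸ isClosed_Iic.inter hp.closed, hp.acc.open_inter isOpen_Iio⟩,
        ⟨a, show a < c by linarith [hc1.1], ha⟩, e0 ▸ hc.inter_left isClosed_Iic, i0 _⟩
    · exact ⟨⟨e1 ▸ isClosed_Ici.inter hp.closed, hp.acc.open_inter isOpen_Ioi⟩,
        ⟨b, show c < b by linarith [hc1.2], hb⟩, e1 ▸ hc.inter_left isClosed_Ici, i0 _⟩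
  · show Iio c ∩ E ∪ Ioi c ∩ E = E
    rw [e0, ← union_inter_distrib_right, Iic_union_Ioi, univ_inter]
  · exact Set.disjoint_left.2 fun y h1 h2 => lt_asymm (show y < c from h1.1) h2.1
  · rw [hd]
    cases i
    · refine (Metric.diam_mono (t := Icc a c) (fun y hy => ⟨(hsub hy.2).1, le_of_lt hy.1⟩)
        (Metric.isBounded_Icc _ _)).trans ?_
      rw [Real.diam_Icc (by linarith [hc1.1])]; linarith [hc1.2]
    · refine (Metric.diam_mono (t := Icc c b) (fun y hy => ⟨le_of_lt hy.1, (hsub hy.2).2⟩)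
        (Metric.isBounded_Icc _ _)).trans ?_
      rw [Real.diam_Icc (by linarith [hc1.2])]; linarith [hc1.1]

/-- Brouwer: a nonempty compact perfect nowhere dense set of reals is a Cantor space. -/
theorem brouwer {E : Set ℝ} (h : Ok E) : Nonempty (E ≃ₜ (ℕ → Bool)) := by
  classical
  choose C h1 h2 h3 h4 using fun P : {E // Ok E} => split P.2
  let DP : List Bool → {E // Ok E} := fun l => List.rec ⟨E, h⟩ (fun a _ P => ⟨C P a, h1 P a⟩) l
  let D : List Bool → Set ℝ := fun l => (DP l).val
  have hD : ∀ a l, D (a :: l) = C (DP l) a := fun _ _ => rfl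
  have hanti : ClosureAntitone D := by
    refine Antitone.closureAntitone ?_ fun l => (DP l).property.1.closed
    intro l a
    rw [hD]
    show _ ⊆ (DP l).val
    rw [← h2 (DP l)]
    cases a
    exacts [subset_union_left, subset_union_right]
  have hdm : ∀ l : List Bool, Metric.diam (D l) ≤ (2 / 3) ^ l.length * Metric.diam E := by
    intro l
    induction l with
    | nil => simp [D, DP]
    | cons a l ih =>
      refine (h4 (DP l) a).trans ?_
      rw [List.length_cons, pow_succ]
      have : Metric.diam (DP l).val = Metric.diam (D l) := rfl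
      linarith
  have hdiam : VanishingDiam D := by
    intro x
    have h5 : Tendsto (fun n : ℕ => ENNReal.ofReal ((2 / 3 : ℝ) ^ n * Metric.diam E)) atTop (𝓝 0) := by
      have := ENNReal.tendsto_ofReal ((tendsto_pow_atTop_nhds_zero_of_lt_one (r := (2 / 3 : ℝ))
        (by norm_num) (by norm_num)).mul_const (Metric.diam E))
      simpa using this
    refine tendsto_of_tendsto_of_tendsto_of_le_of_le tendsto_const_nhds h5 (fun _ => zero_le)
      fun n => ?_
    have h6 := hdm (PiNat.res x n)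
    rw [PiNat.res_length] at h6
    rw [← ENNReal.ofReal_toReal (DP (PiNat.res x n)).2.2.2.1.isBounded.ediam_ne_top]
    exact ENNReal.ofReal_le_ofReal h6
  have hdisj : CantorScheme.Disjoint D := by
    rintro l (a | a) (b | b) hab <;> try contradiction
    · exact h3 _
    · exact (h3 _).symm
  have hdom : ∀ {x : ℕ → Bool}, x ∈ (inducedMap D).1 := fun {x} => by
    rw [hanti.map_of_vanishingDiam hdiam fun l => (DP l).property.2.1]
    apply mem_univ
  let f : (ℕ → Bool) → E := fun x => ⟨(inducedMap D).2 ⟨x, hdom⟩, map_mem ⟨_, hdom⟩ 0⟩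
  have hf : Continuous f := by
    refine Continuous.subtype_mk (hdiam.map_continuous.comp ?_) _
    fun_prop
  have hinj : Function.Injective f := by
    intro x y hxy
    have h7 : (inducedMap D).2 ⟨x, hdom⟩ = (inducedMap D).2 ⟨y, hdom⟩ := Subtype.ext_iff.1 hxy
    simpa only [← Subtype.val_inj] using hdisj.map_injective h7
  have hsurj : Function.Surjective f := by
    rintro ⟨y, hy⟩
    let l : ℕ → List Bool := fun n => Nat.rec [] (fun _ l => decide (y ∈ D (true :: l)) :: l) n
    let x : ℕ → Bool := fun n => decide (y ∈ D (true :: l n))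
    have hl : ∀ n, PiNat.res x n = l n := by
      intro n
      induction n with
      | zero => rfl
      | succ n ih => rw [PiNat.res_succ, ih]
    have hy' : ∀ n, y ∈ D (l n) := by
      intro n
      induction n with
      | zero => exact hy
      | succ n ih =>
        show y ∈ D (decide (y ∈ D (true :: l n)) :: l n)
        by_cases h5 : y ∈ D (true :: l n)
        · simp [h5]
        · have h6 : y ∈ (DP (l n)).val := ih
          rw [← h2 (DP (l n))] at h6
          simp only [h5, decide_false]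
          exact h6.resolve_right h5
    refine ⟨x, Subtype.ext ?_⟩
    refine eq_of_forall_dist_le fun ε hε => ?_
    obtain ⟨n, hn⟩ := hdiam.dist_lt ε hε x
    exact (hn _ (map_mem ⟨x, hdom⟩ n) y (hl n ▸ hy' n)).le
  exact ⟨(Continuous.homeoOfEquivCompactToT2 (f := Equiv.ofBijective f ⟨hinj, hsurj⟩) hf).symm⟩

theorem brouwer_cantorSet {E : Set ℝ} (h : Ok E) : Nonempty (E ≃ₜ cantorSet) :=
  let ⟨e⟩ := brouwer h
  ⟨e.trans cantorSetHomeomorphNatToBool.symm⟩

end Pool.Agent.Lib.helper18.Brouwer
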