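import Mathlib

namespace Pool.Agent.Lib.helper18.Stretch

open Set Filter Topology

lemma sub_interval (g : ℝ → ℝ) (hg : Continuous g) {s t c d : ℝ} (hst : s ≤ t) (hcd : c ≤ d)
    (hs : g s ≤ c) (ht : d ≤ g t) :
    ∃ s' t', s ≤ s' ∧ s' ≤ t' ∧ t' ≤ t ∧ g s' = c ∧ g t' = d ∧
      ∀ r ∈ Icc s' t', g r ∈ Icc c d := by
  have hK : IsCompact (Icc s t ∩ {r | g r ≤ c}) :=
    isCompact_Icc.inter_right (isClosed_le hg continuous_const)
  obtain ⟨s', ⟨hs1, hs2⟩, hs3⟩ := hK.exists_isGreatest ⟨s, ⟨le_rfl, hst⟩, hs⟩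
  have hs2' : g s' ≤ c := hs2
  have hK' : IsCompact (Icc s' t ∩ {r | d ≤ g r}) :=
    isCompact_Icc.inter_right (isClosed_le continuous_const hg)
  obtain ⟨t', ⟨ht1, ht2⟩, ht3⟩ := hK'.exists_isLeast ⟨t, ⟨hs1.2, le_rfl⟩, ht⟩
  have ht2' : d ≤ g t' := ht2
  have e1 : g s' = c := by
    obtain ⟨r, hr, h⟩ := intermediate_value_Icc hs1.2 hg.continuousOn ⟨hs2', hcd.trans ht⟩
    have : r ≤ s' := hs3 ⟨⟨hs1.1.trans hr.1, hr.2⟩, h.le⟩
    rw [← le_antisymm this hr.1, h]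
  have e2 : g t' = d := by
    obtain ⟨r, hr, h⟩ := intermediate_value_Icc ht1.1 hg.continuousOn ⟨hs2'.trans hcd, ht2'⟩
    have : t' ≤ r := ht3 ⟨⟨hr.1, hr.2.trans ht1.2⟩, h.ge⟩
    rw [le_antisymm this hr.2, h]
  refine ⟨s', t', hs1.1, ht1.1, ht1.2, e1, e2, fun r hr => ⟨?_, ?_⟩⟩
  · by_contra h
    push Not at h
    have : r ≤ s' := hs3 ⟨⟨hs1.1.trans hr.1, hr.2.trans ht1.2⟩, h.le⟩
    rw [le_antisymm this hr.1] at h; linarith
  · by_contra h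
    push Not at h
    have : t' ≤ r := ht3 ⟨⟨hr.1, hr.2.trans ht1.2⟩, h.le⟩
    rw [← le_antisymm this hr.2] at h; linarith

variable {S ι : Type*} [TopologicalSpace S]

/-- orbit along an itinerary -/
def orb (f : ι → S → S) (σ : ℕ → ι) : ℕ → S → S
  | 0 => id
  | n + 1 => fun x => f (σ n) (orb f σ n x)

omit [TopologicalSpace S] in
lemma orb_succ' (f : ι → S → S) (σ : ℕ → ι) (n : ℕ) (x : S) :
    orb f σ (n + 1) x = orb f (fun k => σ (k + 1)) n (f (σ 0) x) := by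
  induction n with
  | zero => rfl
  | succ n ih =>
    show f (σ (n + 1)) (orb f σ (n + 1) x) =
      f (σ (n + 1)) (orb f (fun k => σ (k + 1)) n (f (σ 0) x))
    rw [ih]

lemma orb_cont (f : ι → S → S) (hf : ∀ i, Continuous (f i)) (σ : ℕ → ι) (n : ℕ) :
    Continuous (orb f σ n) := by
  induction n with
  | zero => exact continuous_id
  | succ n ih => exact (hf _).comp ih

theorem finite_word (P : S → Prop) (π : S → ℝ) (hπ : Continuous π) (f : ι → S → S)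
    (hf : ∀ i, Continuous (f i)) (a b : ℝ) (lo hi : ι → ℝ)
    (hlo : ∀ i, a ≤ lo i ∧ lo i ≤ hi i ∧ hi i ≤ b)
    (hP : ∀ i x, P x → π x ∈ Icc (lo i) (hi i) → P (f i x))
    (hl : ∀ i x, P x → π x = lo i → b ≤ π (f i x))
    (hr : ∀ i x, P x → π x = hi i → π (f i x) ≤ a) (n : ℕ) :
    ∀ (σ : ℕ → ι) (Γ : ℝ → S) (s t : ℝ), Continuous Γ → s ≤ t → (∀ r ∈ Icc s t, P (Γ r)) →
      π (Γ s) ≤ a → b ≤ π (Γ t) →
      ∃ r ∈ Icc s t, ∀ k < n, π (orb f σ k (Γ r)) ∈ Icc (lo (σ k)) (hi (σ k)) := by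
  induction n with
  | zero => intro σ Γ s t _ hst _ _ _; exact ⟨s, ⟨le_rfl, hst⟩, fun k hk => by omega⟩
  | succ n ih =>
    intro σ Γ s t hΓ hst hPΓ hs ht
    obtain ⟨s', t', h1, h2, h3, e1, e2, h4⟩ := sub_interval (fun r => π (Γ r)) (hπ.comp hΓ) hst
      (hlo (σ 0)).2.1 (hs.trans (hlo (σ 0)).1) ((hlo (σ 0)).2.2.trans ht)
    have hP' : ∀ r ∈ Icc s' t', P (Γ r) := fun r hr => hPΓ r ⟨h1.trans hr.1, hr.2.trans h3⟩
    obtain ⟨r, hr', hr2⟩ := ih (fun k => σ (k + 1)) (fun r => f (σ 0) (Γ (-r))) (-t') (-s')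
      ((hf _).comp (hΓ.comp continuous_neg)) (by linarith)
      (fun r hr => by
        have : -r ∈ Icc s' t' := ⟨by linarith [hr.2], by linarith [hr.1]⟩
        exact hP _ _ (hP' _ this) (h4 _ this))
      (by rw [neg_neg]; exact hr _ _ (hP' _ ⟨h2, le_rfl⟩) e2)
      (by rw [neg_neg]; exact hl _ _ (hP' _ ⟨le_rfl, h2⟩) e1)
    have hm : -r ∈ Icc s' t' := ⟨by linarith [hr'.2], by linarith [hr'.1]⟩
    refine ⟨-r, ⟨h1.trans hm.1, hm.2.trans h3⟩, fun k hk => ?_⟩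
    rcases k with _ | k
    · exact h4 _ hm
    · rw [orb_succ']; exact hr2 k (by omega)

theorem infinite_word (P : S → Prop) (π : S → ℝ) (hπ : Continuous π) (f : ι → S → S)
    (hf : ∀ i, Continuous (f i)) (a b : ℝ) (lo hi : ι → ℝ)
    (hlo : ∀ i, a ≤ lo i ∧ lo i ≤ hi i ∧ hi i ≤ b)
    (hP : ∀ i x, P x → π x ∈ Icc (lo i) (hi i) → P (f i x))
    (hl : ∀ i x, P x → π x = lo i → b ≤ π (f i x))
    (hr : ∀ i x, P x → π x = hi i → π (f i x) ≤ a)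
    (σ : ℕ → ι) (Γ : ℝ → S) (s t : ℝ) (hΓ : Continuous Γ) (hst : s ≤ t)
    (hPΓ : ∀ r ∈ Icc s t, P (Γ r)) (hs : π (Γ s) ≤ a) (ht : b ≤ π (Γ t)) :
    ∃ r ∈ Icc s t, ∀ k, P (orb f σ k (Γ r)) ∧
      π (orb f σ k (Γ r)) ∈ Icc (lo (σ k)) (hi (σ k)) := by
  set E : ℕ → Set ℝ := fun n => Icc s t ∩
    ⋂ k ∈ {k | k < n}, {r | π (orb f σ k (Γ r)) ∈ Icc (lo (σ k)) (hi (σ k))} with hE
  have hcl : ∀ n, IsClosed (E n) := fun n => isClosed_Icc.inter <|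
    isClosed_biInter fun k _ => isClosed_Icc.preimage (hπ.comp ((orb_cont f hf σ k).comp hΓ))
  have hne : ∀ n, (E n).Nonempty := fun n => by
    obtain ⟨r, h1, h2⟩ := finite_word P π hπ f hf a b lo hi hlo hP hl hr n σ Γ s t hΓ hst hPΓ hs ht
    exact ⟨r, h1, mem_iInter₂.2 fun k hk => h2 k hk⟩
  obtain ⟨r, hr'⟩ := IsCompact.nonempty_iInter_of_sequence_nonempty_isCompact_isClosed E
    (fun n => inter_subset_inter_right _ (biInter_subset_biInter_left fun k (hk : k < n) =>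
      Nat.lt_succ_of_lt hk)) hne (isCompact_Icc.of_isClosed_subset (hcl 0) inter_subset_left) hcl
  have h1 : r ∈ Icc s t := (mem_iInter.1 hr' 0).1
  have h2 : ∀ k, π (orb f σ k (Γ r)) ∈ Icc (lo (σ k)) (hi (σ k)) := fun k =>
    mem_iInter₂.1 (mem_iInter.1 hr' (k + 1)).2 k (Nat.lt_succ_self k)
  refine ⟨r, h1, fun k => ⟨?_, h2 k⟩⟩
  induction k with
  | zero => exact hPΓ r h1
  | succ k ih => exact hP _ _ ih (h2 k)

end Pool.Agent.Lib.helper18.Stretch
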