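import Mathlib

namespace Pool.Agent.Lib.helper18.Words

/-- the working range -/
def R (x : ℝ) : Prop := -2 ≤ x ∧ x ≤ 8

lemma st1 {a b c ε : ℝ} (h : |c - max (-1) (a - b)| ≤ ε) (h1 : -1 ≤ a - b) :
    a - b - ε ≤ c ∧ c ≤ a - b + ε := by
  rw [max_eq_right h1, abs_le] at h; constructor <;> linarith [h.1, h.2]

lemma st0 {a b c ε : ℝ} (h : |c - max (-1) (a - b)| ≤ ε) (h1 : a - b ≤ -1) :
    -1 - 1 * ε ≤ c ∧ c ≤ -1 + 1 * ε := by
  rw [max_eq_left h1, abs_le] at h; constructor <;> linarith [h.1, h.2]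

lemma word0 (ε : ℝ) (h0 : 0 ≤ ε) (h1 : ε ≤ 1 / 10 ^ 7) (X : ℕ → ℝ)
    (hs : ∀ n, R (X n) → R (X (n + 1)) → R (X (n + 2)) → |X (n + 3) - max (-1) (X n - X (n + 2))| ≤ ε)
    (a0 : |X 0 + 1| ≤ ε) (a2 : |X 2 + 1| ≤ ε) (t1 : 223 / 100 ≤ X 1) (t2 : X 1 ≤ 453 / 200) :
    |X 27 + 1| ≤ ε ∧ |X 29 + 1| ≤ ε ∧ |X 28 - (9 - 3 * X 1)| ≤ 1 / 1000 ∧ ∀ j < 27, R (X j) := by
  have b0 : -1 - 1 * ε ≤ X 0 ∧ X 0 ≤ -1 + 1 * ε := by rw [abs_le] at a0; constructor <;> linarith only [a0.1, a0.2]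
  have b1 : X 1 ≤ X 1 ∧ X 1 ≤ X 1 := ⟨le_rfl, le_rfl⟩
  have b2 : -1 - 1 * ε ≤ X 2 ∧ X 2 ≤ -1 + 1 * ε := by rw [abs_le] at a2; constructor <;> linarith only [a2.1, a2.2]
  have r0 : R (X 0) := ⟨by linarith only [b0.1, t1, t2, h0, h1], by linarith only [b0.2, t1, t2, h0, h1]⟩
  have r1 : R (X 1) := ⟨by linarith only [b1.1, t1, t2, h0, h1], by linarith only [b1.2, t1, t2, h0, h1]⟩
  have r2 : R (X 2) := ⟨by linarith only [b2.1, t1, t2, h0, h1], by linarith only [b2.2, t1, t2, h0, h1]⟩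
  have s3 : X 0 - X 2 - ε ≤ X 3 ∧ X 3 ≤ X 0 - X 2 + ε := st1 (hs 0 r0 r1 r2) (by linarith only [b0.1, b2.2, t1, t2, h0, h1])
  have b3 : (0) + (0) * X 1 - 3 * ε ≤ X 3 ∧ X 3 ≤ (0) + (0) * X 1 + 3 * ε := ⟨by linarith only [s3.1, b0.1, b2.2], by linarith only [s3.2, b0.2, b2.1]⟩
  have r3 : R (X 3) := ⟨by linarith only [b3.1, t1, t2, h0, h1], by linarith only [b3.2, t1, t2, h0, h1]⟩
  have s4 : X 1 - X 3 - ε ≤ X 4 ∧ X 4 ≤ X 1 - X 3 + ε := st1 (hs 1 r1 r2 r3) (by linarith only [b1.1, b3.2, t1, t2, h0, h1])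
  have b4 : (0) + (1) * X 1 - 4 * ε ≤ X 4 ∧ X 4 ≤ (0) + (1) * X 1 + 4 * ε := ⟨by linarith only [s4.1, b1.1, b3.2], by linarith only [s4.2, b1.2, b3.1]⟩
  have r4 : R (X 4) := ⟨by linarith only [b4.1, t1, t2, h0, h1], by linarith only [b4.2, t1, t2, h0, h1]⟩
  have b5 : -1 - 1 * ε ≤ X 5 ∧ X 5 ≤ -1 + 1 * ε := st0 (hs 2 r2 r3 r4) (by linarith only [b2.2, b4.1, t1, t2, h0, h1])
  have r5 : R (X 5) := ⟨by linarith only [b5.1, t1, t2, h0, h1], by linarith only [b5.2, t1, t2, h0, h1]⟩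
  have s6 : X 3 - X 5 - ε ≤ X 6 ∧ X 6 ≤ X 3 - X 5 + ε := st1 (hs 3 r3 r4 r5) (by linarith only [b3.1, b5.2, t1, t2, h0, h1])
  have b6 : (1) + (0) * X 1 - 5 * ε ≤ X 6 ∧ X 6 ≤ (1) + (0) * X 1 + 5 * ε := ⟨by linarith only [s6.1, b3.1, b5.2], by linarith only [s6.2, b3.2, b5.1]⟩
  have r6 : R (X 6) := ⟨by linarith only [b6.1, t1, t2, h0, h1], by linarith only [b6.2, t1, t2, h0, h1]⟩
  have s7 : X 4 - X 6 - ε ≤ X 7 ∧ X 7 ≤ X 4 - X 6 + ε := st1 (hs 4 r4 r5 r6) (by linarith only [b4.1, b6.2, t1, t2, h0, h1])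
  have b7 : (-1) + (1) * X 1 - 10 * ε ≤ X 7 ∧ X 7 ≤ (-1) + (1) * X 1 + 10 * ε := ⟨by linarith only [s7.1, b4.1, b6.2], by linarith only [s7.2, b4.2, b6.1]⟩
  have r7 : R (X 7) := ⟨by linarith only [b7.1, t1, t2, h0, h1], by linarith only [b7.2, t1, t2, h0, h1]⟩
  have b8 : -1 - 1 * ε ≤ X 8 ∧ X 8 ≤ -1 + 1 * ε := st0 (hs 5 r5 r6 r7) (by linarith only [b5.2, b7.1, t1, t2, h0, h1])
  have r8 : R (X 8) := ⟨by linarith only [b8.1, t1, t2, h0, h1], by linarith only [b8.2, t1, t2, h0, h1]⟩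
  have s9 : X 6 - X 8 - ε ≤ X 9 ∧ X 9 ≤ X 6 - X 8 + ε := st1 (hs 6 r6 r7 r8) (by linarith only [b6.1, b8.2, t1, t2, h0, h1])
  have b9 : (2) + (0) * X 1 - 7 * ε ≤ X 9 ∧ X 9 ≤ (2) + (0) * X 1 + 7 * ε := ⟨by linarith only [s9.1, b6.1, b8.2], by linarith only [s9.2, b6.2, b8.1]⟩
  have r9 : R (X 9) := ⟨by linarith only [b9.1, t1, t2, h0, h1], by linarith only [b9.2, t1, t2, h0, h1]⟩
  have s10 : X 7 - X 9 - ε ≤ X 10 ∧ X 10 ≤ X 7 - X 9 + ε := st1 (hs 7 r7 r8 r9) (by linarith only [b7.1, b9.2, t1, t2, h0, h1])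
  have b10 : (-3) + (1) * X 1 - 18 * ε ≤ X 10 ∧ X 10 ≤ (-3) + (1) * X 1 + 18 * ε := ⟨by linarith only [s10.1, b7.1, b9.2], by linarith only [s10.2, b7.2, b9.1]⟩
  have r10 : R (X 10) := ⟨by linarith only [b10.1, t1, t2, h0, h1], by linarith only [b10.2, t1, t2, h0, h1]⟩
  have s11 : X 8 - X 10 - ε ≤ X 11 ∧ X 11 ≤ X 8 - X 10 + ε := st1 (hs 8 r8 r9 r10) (by linarith only [b8.1, b10.2, t1, t2, h0, h1])
  have b11 : (2) + (-1) * X 1 - 20 * ε ≤ X 11 ∧ X 11 ≤ (2) + (-1) * X 1 + 20 * ε := ⟨by linarith only [s11.1, b8.1, b10.2], by linarith only [s11.2, b8.2, b10.1]⟩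
  have r11 : R (X 11) := ⟨by linarith only [b11.1, t1, t2, h0, h1], by linarith only [b11.2, t1, t2, h0, h1]⟩
  have s12 : X 9 - X 11 - ε ≤ X 12 ∧ X 12 ≤ X 9 - X 11 + ε := st1 (hs 9 r9 r10 r11) (by linarith only [b9.1, b11.2, t1, t2, h0, h1])
  have b12 : (0) + (1) * X 1 - 28 * ε ≤ X 12 ∧ X 12 ≤ (0) + (1) * X 1 + 28 * ε := ⟨by linarith only [s12.1, b9.1, b11.2], by linarith only [s12.2, b9.2, b11.1]⟩
  have r12 : R (X 12) := ⟨by linarith only [b12.1, t1, t2, h0, h1], by linarith only [b12.2, t1, t2, h0, h1]⟩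
  have b13 : -1 - 1 * ε ≤ X 13 ∧ X 13 ≤ -1 + 1 * ε := st0 (hs 10 r10 r11 r12) (by linarith only [b10.2, b12.1, t1, t2, h0, h1])
  have r13 : R (X 13) := ⟨by linarith only [b13.1, t1, t2, h0, h1], by linarith only [b13.2, t1, t2, h0, h1]⟩
  have s14 : X 11 - X 13 - ε ≤ X 14 ∧ X 14 ≤ X 11 - X 13 + ε := st1 (hs 11 r11 r12 r13) (by linarith only [b11.1, b13.2, t1, t2, h0, h1])
  have b14 : (3) + (-1) * X 1 - 22 * ε ≤ X 14 ∧ X 14 ≤ (3) + (-1) * X 1 + 22 * ε := ⟨by linarith only [s14.1, b11.1, b13.2], by linarith only [s14.2, b11.2, b13.1]⟩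
  have r14 : R (X 14) := ⟨by linarith only [b14.1, t1, t2, h0, h1], by linarith only [b14.2, t1, t2, h0, h1]⟩
  have s15 : X 12 - X 14 - ε ≤ X 15 ∧ X 15 ≤ X 12 - X 14 + ε := st1 (hs 12 r12 r13 r14) (by linarith only [b12.1, b14.2, t1, t2, h0, h1])
  have b15 : (-3) + (2) * X 1 - 51 * ε ≤ X 15 ∧ X 15 ≤ (-3) + (2) * X 1 + 51 * ε := ⟨by linarith only [s15.1, b12.1, b14.2], by linarith only [s15.2, b12.2, b14.1]⟩
  have r15 : R (X 15) := ⟨by linarith only [b15.1, t1, t2, h0, h1], by linarith only [b15.2, t1, t2, h0, h1]⟩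
  have b16 : -1 - 1 * ε ≤ X 16 ∧ X 16 ≤ -1 + 1 * ε := st0 (hs 13 r13 r14 r15) (by linarith only [b13.2, b15.1, t1, t2, h0, h1])
  have r16 : R (X 16) := ⟨by linarith only [b16.1, t1, t2, h0, h1], by linarith only [b16.2, t1, t2, h0, h1]⟩
  have s17 : X 14 - X 16 - ε ≤ X 17 ∧ X 17 ≤ X 14 - X 16 + ε := st1 (hs 14 r14 r15 r16) (by linarith only [b14.1, b16.2, t1, t2, h0, h1])
  have b17 : (4) + (-1) * X 1 - 24 * ε ≤ X 17 ∧ X 17 ≤ (4) + (-1) * X 1 + 24 * ε := ⟨by linarith only [s17.1, b14.1, b16.2], by linarith only [s17.2, b14.2, b16.1]⟩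
  have r17 : R (X 17) := ⟨by linarith only [b17.1, t1, t2, h0, h1], by linarith only [b17.2, t1, t2, h0, h1]⟩
  have s18 : X 15 - X 17 - ε ≤ X 18 ∧ X 18 ≤ X 15 - X 17 + ε := st1 (hs 15 r15 r16 r17) (by linarith only [b15.1, b17.2, t1, t2, h0, h1])
  have b18 : (-7) + (3) * X 1 - 76 * ε ≤ X 18 ∧ X 18 ≤ (-7) + (3) * X 1 + 76 * ε := ⟨by linarith only [s18.1, b15.1, b17.2], by linarith only [s18.2, b15.2, b17.1]⟩
  have r18 : R (X 18) := ⟨by linarith only [b18.1, t1, t2, h0, h1], by linarith only [b18.2, t1, t2, h0, h1]⟩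
  have s19 : X 16 - X 18 - ε ≤ X 19 ∧ X 19 ≤ X 16 - X 18 + ε := st1 (hs 16 r16 r17 r18) (by linarith only [b16.1, b18.2, t1, t2, h0, h1])
  have b19 : (6) + (-3) * X 1 - 78 * ε ≤ X 19 ∧ X 19 ≤ (6) + (-3) * X 1 + 78 * ε := ⟨by linarith only [s19.1, b16.1, b18.2], by linarith only [s19.2, b16.2, b18.1]⟩
  have r19 : R (X 19) := ⟨by linarith only [b19.1, t1, t2, h0, h1], by linarith only [b19.2, t1, t2, h0, h1]⟩
  have s20 : X 17 - X 19 - ε ≤ X 20 ∧ X 20 ≤ X 17 - X 19 + ε := st1 (hs 17 r17 r18 r19) (by linarith only [b17.1, b19.2, t1, t2, h0, h1])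
  have b20 : (-2) + (2) * X 1 - 103 * ε ≤ X 20 ∧ X 20 ≤ (-2) + (2) * X 1 + 103 * ε := ⟨by linarith only [s20.1, b17.1, b19.2], by linarith only [s20.2, b17.2, b19.1]⟩
  have r20 : R (X 20) := ⟨by linarith only [b20.1, t1, t2, h0, h1], by linarith only [b20.2, t1, t2, h0, h1]⟩
  have b21 : -1 - 1 * ε ≤ X 21 ∧ X 21 ≤ -1 + 1 * ε := st0 (hs 18 r18 r19 r20) (by linarith only [b18.2, b20.1, t1, t2, h0, h1])
  have r21 : R (X 21) := ⟨by linarith only [b21.1, t1, t2, h0, h1], by linarith only [b21.2, t1, t2, h0, h1]⟩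
  have s22 : X 19 - X 21 - ε ≤ X 22 ∧ X 22 ≤ X 19 - X 21 + ε := st1 (hs 19 r19 r20 r21) (by linarith only [b19.1, b21.2, t1, t2, h0, h1])
  have b22 : (7) + (-3) * X 1 - 80 * ε ≤ X 22 ∧ X 22 ≤ (7) + (-3) * X 1 + 80 * ε := ⟨by linarith only [s22.1, b19.1, b21.2], by linarith only [s22.2, b19.2, b21.1]⟩
  have r22 : R (X 22) := ⟨by linarith only [b22.1, t1, t2, h0, h1], by linarith only [b22.2, t1, t2, h0, h1]⟩
  have s23 : X 20 - X 22 - ε ≤ X 23 ∧ X 23 ≤ X 20 - X 22 + ε := st1 (hs 20 r20 r21 r22) (by linarith only [b20.1, b22.2, t1, t2, h0, h1])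
  have b23 : (-9) + (5) * X 1 - 184 * ε ≤ X 23 ∧ X 23 ≤ (-9) + (5) * X 1 + 184 * ε := ⟨by linarith only [s23.1, b20.1, b22.2], by linarith only [s23.2, b20.2, b22.1]⟩
  have r23 : R (X 23) := ⟨by linarith only [b23.1, t1, t2, h0, h1], by linarith only [b23.2, t1, t2, h0, h1]⟩
  have b24 : -1 - 1 * ε ≤ X 24 ∧ X 24 ≤ -1 + 1 * ε := st0 (hs 21 r21 r22 r23) (by linarith only [b21.2, b23.1, t1, t2, h0, h1])
  have r24 : R (X 24) := ⟨by linarith only [b24.1, t1, t2, h0, h1], by linarith only [b24.2, t1, t2, h0, h1]⟩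
  have s25 : X 22 - X 24 - ε ≤ X 25 ∧ X 25 ≤ X 22 - X 24 + ε := st1 (hs 22 r22 r23 r24) (by linarith only [b22.1, b24.2, t1, t2, h0, h1])
  have b25 : (8) + (-3) * X 1 - 82 * ε ≤ X 25 ∧ X 25 ≤ (8) + (-3) * X 1 + 82 * ε := ⟨by linarith only [s25.1, b22.1, b24.2], by linarith only [s25.2, b22.2, b24.1]⟩
  have r25 : R (X 25) := ⟨by linarith only [b25.1, t1, t2, h0, h1], by linarith only [b25.2, t1, t2, h0, h1]⟩
  have s26 : X 23 - X 25 - ε ≤ X 26 ∧ X 26 ≤ X 23 - X 25 + ε := st1 (hs 23 r23 r24 r25) (by linarith only [b23.1, b25.2, t1, t2, h0, h1])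
  have b26 : (-17) + (8) * X 1 - 267 * ε ≤ X 26 ∧ X 26 ≤ (-17) + (8) * X 1 + 267 * ε := ⟨by linarith only [s26.1, b23.1, b25.2], by linarith only [s26.2, b23.2, b25.1]⟩
  have r26 : R (X 26) := ⟨by linarith only [b26.1, t1, t2, h0, h1], by linarith only [b26.2, t1, t2, h0, h1]⟩
  have b27 : -1 - 1 * ε ≤ X 27 ∧ X 27 ≤ -1 + 1 * ε := st0 (hs 24 r24 r25 r26) (by linarith only [b24.2, b26.1, t1, t2, h0, h1])
  have r27 : R (X 27) := ⟨by linarith only [b27.1, t1, t2, h0, h1], by linarith only [b27.2, t1, t2, h0, h1]⟩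
  have s28 : X 25 - X 27 - ε ≤ X 28 ∧ X 28 ≤ X 25 - X 27 + ε := st1 (hs 25 r25 r26 r27) (by linarith only [b25.1, b27.2, t1, t2, h0, h1])
  have b28 : (9) + (-3) * X 1 - 84 * ε ≤ X 28 ∧ X 28 ≤ (9) + (-3) * X 1 + 84 * ε := ⟨by linarith only [s28.1, b25.1, b27.2], by linarith only [s28.2, b25.2, b27.1]⟩
  have r28 : R (X 28) := ⟨by linarith only [b28.1, t1, t2, h0, h1], by linarith only [b28.2, t1, t2, h0, h1]⟩
  have b29 : -1 - 1 * ε ≤ X 29 ∧ X 29 ≤ -1 + 1 * ε := st0 (hs 26 r26 r27 r28) (by linarith only [b26.2, b28.1, t1, t2, h0, h1])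
  have r29 : R (X 29) := ⟨by linarith only [b29.1, t1, t2, h0, h1], by linarith only [b29.2, t1, t2, h0, h1]⟩
  refine ⟨abs_le.2 ⟨by linarith only [b27.1], by linarith only [b27.2]⟩, abs_le.2 ⟨by linarith only [b29.1], by linarith only [b29.2]⟩,
    abs_le.2 ⟨by linarith only [b28.1, h1], by linarith only [b28.2, h1]⟩, fun j hj => ?_⟩
  interval_cases j <;> assumption

lemma word1 (ε : ℝ) (h0 : 0 ≤ ε) (h1 : ε ≤ 1 / 10 ^ 7) (X : ℕ → ℝ)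
    (hs : ∀ n, R (X n) → R (X (n + 1)) → R (X (n + 2)) → |X (n + 3) - max (-1) (X n - X (n + 2))| ≤ ε)
    (a0 : |X 0 + 1| ≤ ε) (a2 : |X 2 + 1| ≤ ε) (t1 : 457 / 200 ≤ X 1) (t2 : X 1 ≤ 917 / 400) :
    |X 46 + 1| ≤ ε ∧ |X 48 + 1| ≤ ε ∧ |X 47 - (71 - 30 * X 1)| ≤ 1 / 1000 ∧ ∀ j < 46, R (X j) := by
  have b0 : -1 - 1 * ε ≤ X 0 ∧ X 0 ≤ -1 + 1 * ε := by rw [abs_le] at a0; constructor <;> linarith only [a0.1, a0.2]
  have b1 : X 1 ≤ X 1 ∧ X 1 ≤ X 1 := ⟨le_rfl, le_rfl⟩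
  have b2 : -1 - 1 * ε ≤ X 2 ∧ X 2 ≤ -1 + 1 * ε := by rw [abs_le] at a2; constructor <;> linarith only [a2.1, a2.2]
  have r0 : R (X 0) := ⟨by linarith only [b0.1, t1, t2, h0, h1], by linarith only [b0.2, t1, t2, h0, h1]⟩
  have r1 : R (X 1) := ⟨by linarith only [b1.1, t1, t2, h0, h1], by linarith only [b1.2, t1, t2, h0, h1]⟩
  have r2 : R (X 2) := ⟨by linarith only [b2.1, t1, t2, h0, h1], by linarith only [b2.2, t1, t2, h0, h1]⟩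
  have s3 : X 0 - X 2 - ε ≤ X 3 ∧ X 3 ≤ X 0 - X 2 + ε := st1 (hs 0 r0 r1 r2) (by linarith only [b0.1, b2.2, t1, t2, h0, h1])
  have b3 : (0) + (0) * X 1 - 3 * ε ≤ X 3 ∧ X 3 ≤ (0) + (0) * X 1 + 3 * ε := ⟨by linarith only [s3.1, b0.1, b2.2], by linarith only [s3.2, b0.2, b2.1]⟩
  have r3 : R (X 3) := ⟨by linarith only [b3.1, t1, t2, h0, h1], by linarith only [b3.2, t1, t2, h0, h1]⟩
  have s4 : X 1 - X 3 - ε ≤ X 4 ∧ X 4 ≤ X 1 - X 3 + ε := st1 (hs 1 r1 r2 r3) (by linarith only [b1.1, b3.2, t1, t2, h0, h1])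
  have b4 : (0) + (1) * X 1 - 4 * ε ≤ X 4 ∧ X 4 ≤ (0) + (1) * X 1 + 4 * ε := ⟨by linarith only [s4.1, b1.1, b3.2], by linarith only [s4.2, b1.2, b3.1]⟩
  have r4 : R (X 4) := ⟨by linarith only [b4.1, t1, t2, h0, h1], by linarith only [b4.2, t1, t2, h0, h1]⟩
  have b5 : -1 - 1 * ε ≤ X 5 ∧ X 5 ≤ -1 + 1 * ε := st0 (hs 2 r2 r3 r4) (by linarith only [b2.2, b4.1, t1, t2, h0, h1])
  have r5 : R (X 5) := ⟨by linarith only [b5.1, t1, t2, h0, h1], by linarith only [b5.2, t1, t2, h0, h1]⟩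
  have s6 : X 3 - X 5 - ε ≤ X 6 ∧ X 6 ≤ X 3 - X 5 + ε := st1 (hs 3 r3 r4 r5) (by linarith only [b3.1, b5.2, t1, t2, h0, h1])
  have b6 : (1) + (0) * X 1 - 5 * ε ≤ X 6 ∧ X 6 ≤ (1) + (0) * X 1 + 5 * ε := ⟨by linarith only [s6.1, b3.1, b5.2], by linarith only [s6.2, b3.2, b5.1]⟩
  have r6 : R (X 6) := ⟨by linarith only [b6.1, t1, t2, h0, h1], by linarith only [b6.2, t1, t2, h0, h1]⟩
  have s7 : X 4 - X 6 - ε ≤ X 7 ∧ X 7 ≤ X 4 - X 6 + ε := st1 (hs 4 r4 r5 r6) (by linarith only [b4.1, b6.2, t1, t2, h0, h1])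
  have b7 : (-1) + (1) * X 1 - 10 * ε ≤ X 7 ∧ X 7 ≤ (-1) + (1) * X 1 + 10 * ε := ⟨by linarith only [s7.1, b4.1, b6.2], by linarith only [s7.2, b4.2, b6.1]⟩
  have r7 : R (X 7) := ⟨by linarith only [b7.1, t1, t2, h0, h1], by linarith only [b7.2, t1, t2, h0, h1]⟩
  have b8 : -1 - 1 * ε ≤ X 8 ∧ X 8 ≤ -1 + 1 * ε := st0 (hs 5 r5 r6 r7) (by linarith only [b5.2, b7.1, t1, t2, h0, h1])
  have r8 : R (X 8) := ⟨by linarith only [b8.1, t1, t2, h0, h1], by linarith only [b8.2, t1, t2, h0, h1]⟩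
  have s9 : X 6 - X 8 - ε ≤ X 9 ∧ X 9 ≤ X 6 - X 8 + ε := st1 (hs 6 r6 r7 r8) (by linarith only [b6.1, b8.2, t1, t2, h0, h1])
  have b9 : (2) + (0) * X 1 - 7 * ε ≤ X 9 ∧ X 9 ≤ (2) + (0) * X 1 + 7 * ε := ⟨by linarith only [s9.1, b6.1, b8.2], by linarith only [s9.2, b6.2, b8.1]⟩
  have r9 : R (X 9) := ⟨by linarith only [b9.1, t1, t2, h0, h1], by linarith only [b9.2, t1, t2, h0, h1]⟩
  have s10 : X 7 - X 9 - ε ≤ X 10 ∧ X 10 ≤ X 7 - X 9 + ε := st1 (hs 7 r7 r8 r9) (by linarith only [b7.1, b9.2, t1, t2, h0, h1])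
  have b10 : (-3) + (1) * X 1 - 18 * ε ≤ X 10 ∧ X 10 ≤ (-3) + (1) * X 1 + 18 * ε := ⟨by linarith only [s10.1, b7.1, b9.2], by linarith only [s10.2, b7.2, b9.1]⟩
  have r10 : R (X 10) := ⟨by linarith only [b10.1, t1, t2, h0, h1], by linarith only [b10.2, t1, t2, h0, h1]⟩
  have s11 : X 8 - X 10 - ε ≤ X 11 ∧ X 11 ≤ X 8 - X 10 + ε := st1 (hs 8 r8 r9 r10) (by linarith only [b8.1, b10.2, t1, t2, h0, h1])
  have b11 : (2) + (-1) * X 1 - 20 * ε ≤ X 11 ∧ X 11 ≤ (2) + (-1) * X 1 + 20 * ε := ⟨by linarith only [s11.1, b8.1, b10.2], by linarith only [s11.2, b8.2, b10.1]⟩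
  have r11 : R (X 11) := ⟨by linarith only [b11.1, t1, t2, h0, h1], by linarith only [b11.2, t1, t2, h0, h1]⟩
  have s12 : X 9 - X 11 - ε ≤ X 12 ∧ X 12 ≤ X 9 - X 11 + ε := st1 (hs 9 r9 r10 r11) (by linarith only [b9.1, b11.2, t1, t2, h0, h1])
  have b12 : (0) + (1) * X 1 - 28 * ε ≤ X 12 ∧ X 12 ≤ (0) + (1) * X 1 + 28 * ε := ⟨by linarith only [s12.1, b9.1, b11.2], by linarith only [s12.2, b9.2, b11.1]⟩
  have r12 : R (X 12) := ⟨by linarith only [b12.1, t1, t2, h0, h1], by linarith only [b12.2, t1, t2, h0, h1]⟩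
  have b13 : -1 - 1 * ε ≤ X 13 ∧ X 13 ≤ -1 + 1 * ε := st0 (hs 10 r10 r11 r12) (by linarith only [b10.2, b12.1, t1, t2, h0, h1])
  have r13 : R (X 13) := ⟨by linarith only [b13.1, t1, t2, h0, h1], by linarith only [b13.2, t1, t2, h0, h1]⟩
  have s14 : X 11 - X 13 - ε ≤ X 14 ∧ X 14 ≤ X 11 - X 13 + ε := st1 (hs 11 r11 r12 r13) (by linarith only [b11.1, b13.2, t1, t2, h0, h1])
  have b14 : (3) + (-1) * X 1 - 22 * ε ≤ X 14 ∧ X 14 ≤ (3) + (-1) * X 1 + 22 * ε := ⟨by linarith only [s14.1, b11.1, b13.2], by linarith only [s14.2, b11.2, b13.1]⟩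
  have r14 : R (X 14) := ⟨by linarith only [b14.1, t1, t2, h0, h1], by linarith only [b14.2, t1, t2, h0, h1]⟩
  have s15 : X 12 - X 14 - ε ≤ X 15 ∧ X 15 ≤ X 12 - X 14 + ε := st1 (hs 12 r12 r13 r14) (by linarith only [b12.1, b14.2, t1, t2, h0, h1])
  have b15 : (-3) + (2) * X 1 - 51 * ε ≤ X 15 ∧ X 15 ≤ (-3) + (2) * X 1 + 51 * ε := ⟨by linarith only [s15.1, b12.1, b14.2], by linarith only [s15.2, b12.2, b14.1]⟩
  have r15 : R (X 15) := ⟨by linarith only [b15.1, t1, t2, h0, h1], by linarith only [b15.2, t1, t2, h0, h1]⟩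
  have b16 : -1 - 1 * ε ≤ X 16 ∧ X 16 ≤ -1 + 1 * ε := st0 (hs 13 r13 r14 r15) (by linarith only [b13.2, b15.1, t1, t2, h0, h1])
  have r16 : R (X 16) := ⟨by linarith only [b16.1, t1, t2, h0, h1], by linarith only [b16.2, t1, t2, h0, h1]⟩
  have s17 : X 14 - X 16 - ε ≤ X 17 ∧ X 17 ≤ X 14 - X 16 + ε := st1 (hs 14 r14 r15 r16) (by linarith only [b14.1, b16.2, t1, t2, h0, h1])
  have b17 : (4) + (-1) * X 1 - 24 * ε ≤ X 17 ∧ X 17 ≤ (4) + (-1) * X 1 + 24 * ε := ⟨by linarith only [s17.1, b14.1, b16.2], by linarith only [s17.2, b14.2, b16.1]⟩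
  have r17 : R (X 17) := ⟨by linarith only [b17.1, t1, t2, h0, h1], by linarith only [b17.2, t1, t2, h0, h1]⟩
  have s18 : X 15 - X 17 - ε ≤ X 18 ∧ X 18 ≤ X 15 - X 17 + ε := st1 (hs 15 r15 r16 r17) (by linarith only [b15.1, b17.2, t1, t2, h0, h1])
  have b18 : (-7) + (3) * X 1 - 76 * ε ≤ X 18 ∧ X 18 ≤ (-7) + (3) * X 1 + 76 * ε := ⟨by linarith only [s18.1, b15.1, b17.2], by linarith only [s18.2, b15.2, b17.1]⟩
  have r18 : R (X 18) := ⟨by linarith only [b18.1, t1, t2, h0, h1], by linarith only [b18.2, t1, t2, h0, h1]⟩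
  have s19 : X 16 - X 18 - ε ≤ X 19 ∧ X 19 ≤ X 16 - X 18 + ε := st1 (hs 16 r16 r17 r18) (by linarith only [b16.1, b18.2, t1, t2, h0, h1])
  have b19 : (6) + (-3) * X 1 - 78 * ε ≤ X 19 ∧ X 19 ≤ (6) + (-3) * X 1 + 78 * ε := ⟨by linarith only [s19.1, b16.1, b18.2], by linarith only [s19.2, b16.2, b18.1]⟩
  have r19 : R (X 19) := ⟨by linarith only [b19.1, t1, t2, h0, h1], by linarith only [b19.2, t1, t2, h0, h1]⟩
  have s20 : X 17 - X 19 - ε ≤ X 20 ∧ X 20 ≤ X 17 - X 19 + ε := st1 (hs 17 r17 r18 r19) (by linarith only [b17.1, b19.2, t1, t2, h0, h1])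
  have b20 : (-2) + (2) * X 1 - 103 * ε ≤ X 20 ∧ X 20 ≤ (-2) + (2) * X 1 + 103 * ε := ⟨by linarith only [s20.1, b17.1, b19.2], by linarith only [s20.2, b17.2, b19.1]⟩
  have r20 : R (X 20) := ⟨by linarith only [b20.1, t1, t2, h0, h1], by linarith only [b20.2, t1, t2, h0, h1]⟩
  have b21 : -1 - 1 * ε ≤ X 21 ∧ X 21 ≤ -1 + 1 * ε := st0 (hs 18 r18 r19 r20) (by linarith only [b18.2, b20.1, t1, t2, h0, h1])
  have r21 : R (X 21) := ⟨by linarith only [b21.1, t1, t2, h0, h1], by linarith only [b21.2, t1, t2, h0, h1]⟩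
  have s22 : X 19 - X 21 - ε ≤ X 22 ∧ X 22 ≤ X 19 - X 21 + ε := st1 (hs 19 r19 r20 r21) (by linarith only [b19.1, b21.2, t1, t2, h0, h1])
  have b22 : (7) + (-3) * X 1 - 80 * ε ≤ X 22 ∧ X 22 ≤ (7) + (-3) * X 1 + 80 * ε := ⟨by linarith only [s22.1, b19.1, b21.2], by linarith only [s22.2, b19.2, b21.1]⟩
  have r22 : R (X 22) := ⟨by linarith only [b22.1, t1, t2, h0, h1], by linarith only [b22.2, t1, t2, h0, h1]⟩
  have s23 : X 20 - X 22 - ε ≤ X 23 ∧ X 23 ≤ X 20 - X 22 + ε := st1 (hs 20 r20 r21 r22) (by linarith only [b20.1, b22.2, t1, t2, h0, h1])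
  have b23 : (-9) + (5) * X 1 - 184 * ε ≤ X 23 ∧ X 23 ≤ (-9) + (5) * X 1 + 184 * ε := ⟨by linarith only [s23.1, b20.1, b22.2], by linarith only [s23.2, b20.2, b22.1]⟩
  have r23 : R (X 23) := ⟨by linarith only [b23.1, t1, t2, h0, h1], by linarith only [b23.2, t1, t2, h0, h1]⟩
  have b24 : -1 - 1 * ε ≤ X 24 ∧ X 24 ≤ -1 + 1 * ε := st0 (hs 21 r21 r22 r23) (by linarith only [b21.2, b23.1, t1, t2, h0, h1])
  have r24 : R (X 24) := ⟨by linarith only [b24.1, t1, t2, h0, h1], by linarith only [b24.2, t1, t2, h0, h1]⟩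
  have s25 : X 22 - X 24 - ε ≤ X 25 ∧ X 25 ≤ X 22 - X 24 + ε := st1 (hs 22 r22 r23 r24) (by linarith only [b22.1, b24.2, t1, t2, h0, h1])
  have b25 : (8) + (-3) * X 1 - 82 * ε ≤ X 25 ∧ X 25 ≤ (8) + (-3) * X 1 + 82 * ε := ⟨by linarith only [s25.1, b22.1, b24.2], by linarith only [s25.2, b22.2, b24.1]⟩
  have r25 : R (X 25) := ⟨by linarith only [b25.1, t1, t2, h0, h1], by linarith only [b25.2, t1, t2, h0, h1]⟩
  have s26 : X 23 - X 25 - ε ≤ X 26 ∧ X 26 ≤ X 23 - X 25 + ε := st1 (hs 23 r23 r24 r25) (by linarith only [b23.1, b25.2, t1, t2, h0, h1])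
  have b26 : (-17) + (8) * X 1 - 267 * ε ≤ X 26 ∧ X 26 ≤ (-17) + (8) * X 1 + 267 * ε := ⟨by linarith only [s26.1, b23.1, b25.2], by linarith only [s26.2, b23.2, b25.1]⟩
  have r26 : R (X 26) := ⟨by linarith only [b26.1, t1, t2, h0, h1], by linarith only [b26.2, t1, t2, h0, h1]⟩
  have b27 : -1 - 1 * ε ≤ X 27 ∧ X 27 ≤ -1 + 1 * ε := st0 (hs 24 r24 r25 r26) (by linarith only [b24.2, b26.1, t1, t2, h0, h1])
  have r27 : R (X 27) := ⟨by linarith only [b27.1, t1, t2, h0, h1], by linarith only [b27.2, t1, t2, h0, h1]⟩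
  have s28 : X 25 - X 27 - ε ≤ X 28 ∧ X 28 ≤ X 25 - X 27 + ε := st1 (hs 25 r25 r26 r27) (by linarith only [b25.1, b27.2, t1, t2, h0, h1])
  have b28 : (9) + (-3) * X 1 - 84 * ε ≤ X 28 ∧ X 28 ≤ (9) + (-3) * X 1 + 84 * ε := ⟨by linarith only [s28.1, b25.1, b27.2], by linarith only [s28.2, b25.2, b27.1]⟩
  have r28 : R (X 28) := ⟨by linarith only [b28.1, t1, t2, h0, h1], by linarith only [b28.2, t1, t2, h0, h1]⟩
  have s29 : X 26 - X 28 - ε ≤ X 29 ∧ X 29 ≤ X 26 - X 28 + ε := st1 (hs 26 r26 r27 r28) (by linarith only [b26.1, b28.2, t1, t2, h0, h1])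
  have b29 : (-26) + (11) * X 1 - 352 * ε ≤ X 29 ∧ X 29 ≤ (-26) + (11) * X 1 + 352 * ε := ⟨by linarith only [s29.1, b26.1, b28.2], by linarith only [s29.2, b26.2, b28.1]⟩
  have r29 : R (X 29) := ⟨by linarith only [b29.1, t1, t2, h0, h1], by linarith only [b29.2, t1, t2, h0, h1]⟩
  have s30 : X 27 - X 29 - ε ≤ X 30 ∧ X 30 ≤ X 27 - X 29 + ε := st1 (hs 27 r27 r28 r29) (by linarith only [b27.1, b29.2, t1, t2, h0, h1])
  have b30 : (25) + (-11) * X 1 - 354 * ε ≤ X 30 ∧ X 30 ≤ (25) + (-11) * X 1 + 354 * ε := ⟨by linarith only [s30.1, b27.1, b29.2], by linarith only [s30.2, b27.2, b29.1]⟩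
  have r30 : R (X 30) := ⟨by linarith only [b30.1, t1, t2, h0, h1], by linarith only [b30.2, t1, t2, h0, h1]⟩
  have s31 : X 28 - X 30 - ε ≤ X 31 ∧ X 31 ≤ X 28 - X 30 + ε := st1 (hs 28 r28 r29 r30) (by linarith only [b28.1, b30.2, t1, t2, h0, h1])
  have b31 : (-16) + (8) * X 1 - 439 * ε ≤ X 31 ∧ X 31 ≤ (-16) + (8) * X 1 + 439 * ε := ⟨by linarith only [s31.1, b28.1, b30.2], by linarith only [s31.2, b28.2, b30.1]⟩
  have r31 : R (X 31) := ⟨by linarith only [b31.1, t1, t2, h0, h1], by linarith only [b31.2, t1, t2, h0, h1]⟩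
  have b32 : -1 - 1 * ε ≤ X 32 ∧ X 32 ≤ -1 + 1 * ε := st0 (hs 29 r29 r30 r31) (by linarith only [b29.2, b31.1, t1, t2, h0, h1])
  have r32 : R (X 32) := ⟨by linarith only [b32.1, t1, t2, h0, h1], by linarith only [b32.2, t1, t2, h0, h1]⟩
  have s33 : X 30 - X 32 - ε ≤ X 33 ∧ X 33 ≤ X 30 - X 32 + ε := st1 (hs 30 r30 r31 r32) (by linarith only [b30.1, b32.2, t1, t2, h0, h1])
  have b33 : (26) + (-11) * X 1 - 356 * ε ≤ X 33 ∧ X 33 ≤ (26) + (-11) * X 1 + 356 * ε := ⟨by linarith only [s33.1, b30.1, b32.2], by linarith only [s33.2, b30.2, b32.1]⟩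
  have r33 : R (X 33) := ⟨by linarith only [b33.1, t1, t2, h0, h1], by linarith only [b33.2, t1, t2, h0, h1]⟩
  have s34 : X 31 - X 33 - ε ≤ X 34 ∧ X 34 ≤ X 31 - X 33 + ε := st1 (hs 31 r31 r32 r33) (by linarith only [b31.1, b33.2, t1, t2, h0, h1])
  have b34 : (-42) + (19) * X 1 - 796 * ε ≤ X 34 ∧ X 34 ≤ (-42) + (19) * X 1 + 796 * ε := ⟨by linarith only [s34.1, b31.1, b33.2], by linarith only [s34.2, b31.2, b33.1]⟩
  have r34 : R (X 34) := ⟨by linarith only [b34.1, t1, t2, h0, h1], by linarith only [b34.2, t1, t2, h0, h1]⟩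
  have b35 : -1 - 1 * ε ≤ X 35 ∧ X 35 ≤ -1 + 1 * ε := st0 (hs 32 r32 r33 r34) (by linarith only [b32.2, b34.1, t1, t2, h0, h1])
  have r35 : R (X 35) := ⟨by linarith only [b35.1, t1, t2, h0, h1], by linarith only [b35.2, t1, t2, h0, h1]⟩
  have s36 : X 33 - X 35 - ε ≤ X 36 ∧ X 36 ≤ X 33 - X 35 + ε := st1 (hs 33 r33 r34 r35) (by linarith only [b33.1, b35.2, t1, t2, h0, h1])
  have b36 : (27) + (-11) * X 1 - 358 * ε ≤ X 36 ∧ X 36 ≤ (27) + (-11) * X 1 + 358 * ε := ⟨by linarith only [s36.1, b33.1, b35.2], by linarith only [s36.2, b33.2, b35.1]⟩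
  have r36 : R (X 36) := ⟨by linarith only [b36.1, t1, t2, h0, h1], by linarith only [b36.2, t1, t2, h0, h1]⟩
  have s37 : X 34 - X 36 - ε ≤ X 37 ∧ X 37 ≤ X 34 - X 36 + ε := st1 (hs 34 r34 r35 r36) (by linarith only [b34.1, b36.2, t1, t2, h0, h1])
  have b37 : (-69) + (30) * X 1 - 1155 * ε ≤ X 37 ∧ X 37 ≤ (-69) + (30) * X 1 + 1155 * ε := ⟨by linarith only [s37.1, b34.1, b36.2], by linarith only [s37.2, b34.2, b36.1]⟩
  have r37 : R (X 37) := ⟨by linarith only [b37.1, t1, t2, h0, h1], by linarith only [b37.2, t1, t2, h0, h1]⟩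
  have s38 : X 35 - X 37 - ε ≤ X 38 ∧ X 38 ≤ X 35 - X 37 + ε := st1 (hs 35 r35 r36 r37) (by linarith only [b35.1, b37.2, t1, t2, h0, h1])
  have b38 : (68) + (-30) * X 1 - 1157 * ε ≤ X 38 ∧ X 38 ≤ (68) + (-30) * X 1 + 1157 * ε := ⟨by linarith only [s38.1, b35.1, b37.2], by linarith only [s38.2, b35.2, b37.1]⟩
  have r38 : R (X 38) := ⟨by linarith only [b38.1, t1, t2, h0, h1], by linarith only [b38.2, t1, t2, h0, h1]⟩
  have s39 : X 36 - X 38 - ε ≤ X 39 ∧ X 39 ≤ X 36 - X 38 + ε := st1 (hs 36 r36 r37 r38) (by linarith only [b36.1, b38.2, t1, t2, h0, h1])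
  have b39 : (-41) + (19) * X 1 - 1516 * ε ≤ X 39 ∧ X 39 ≤ (-41) + (19) * X 1 + 1516 * ε := ⟨by linarith only [s39.1, b36.1, b38.2], by linarith only [s39.2, b36.2, b38.1]⟩
  have r39 : R (X 39) := ⟨by linarith only [b39.1, t1, t2, h0, h1], by linarith only [b39.2, t1, t2, h0, h1]⟩
  have b40 : -1 - 1 * ε ≤ X 40 ∧ X 40 ≤ -1 + 1 * ε := st0 (hs 37 r37 r38 r39) (by linarith only [b37.2, b39.1, t1, t2, h0, h1])
  have r40 : R (X 40) := ⟨by linarith only [b40.1, t1, t2, h0, h1], by linarith only [b40.2, t1, t2, h0, h1]⟩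
  have s41 : X 38 - X 40 - ε ≤ X 41 ∧ X 41 ≤ X 38 - X 40 + ε := st1 (hs 38 r38 r39 r40) (by linarith only [b38.1, b40.2, t1, t2, h0, h1])
  have b41 : (69) + (-30) * X 1 - 1159 * ε ≤ X 41 ∧ X 41 ≤ (69) + (-30) * X 1 + 1159 * ε := ⟨by linarith only [s41.1, b38.1, b40.2], by linarith only [s41.2, b38.2, b40.1]⟩
  have r41 : R (X 41) := ⟨by linarith only [b41.1, t1, t2, h0, h1], by linarith only [b41.2, t1, t2, h0, h1]⟩
  have s42 : X 39 - X 41 - ε ≤ X 42 ∧ X 42 ≤ X 39 - X 41 + ε := st1 (hs 39 r39 r40 r41) (by linarith only [b39.1, b41.2, t1, t2, h0, h1])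
  have b42 : (-110) + (49) * X 1 - 2676 * ε ≤ X 42 ∧ X 42 ≤ (-110) + (49) * X 1 + 2676 * ε := ⟨by linarith only [s42.1, b39.1, b41.2], by linarith only [s42.2, b39.2, b41.1]⟩
  have r42 : R (X 42) := ⟨by linarith only [b42.1, t1, t2, h0, h1], by linarith only [b42.2, t1, t2, h0, h1]⟩
  have b43 : -1 - 1 * ε ≤ X 43 ∧ X 43 ≤ -1 + 1 * ε := st0 (hs 40 r40 r41 r42) (by linarith only [b40.2, b42.1, t1, t2, h0, h1])
  have r43 : R (X 43) := ⟨by linarith only [b43.1, t1, t2, h0, h1], by linarith only [b43.2, t1, t2, h0, h1]⟩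
  have s44 : X 41 - X 43 - ε ≤ X 44 ∧ X 44 ≤ X 41 - X 43 + ε := st1 (hs 41 r41 r42 r43) (by linarith only [b41.1, b43.2, t1, t2, h0, h1])
  have b44 : (70) + (-30) * X 1 - 1161 * ε ≤ X 44 ∧ X 44 ≤ (70) + (-30) * X 1 + 1161 * ε := ⟨by linarith only [s44.1, b41.1, b43.2], by linarith only [s44.2, b41.2, b43.1]⟩
  have r44 : R (X 44) := ⟨by linarith only [b44.1, t1, t2, h0, h1], by linarith only [b44.2, t1, t2, h0, h1]⟩
  have s45 : X 42 - X 44 - ε ≤ X 45 ∧ X 45 ≤ X 42 - X 44 + ε := st1 (hs 42 r42 r43 r44) (by linarith only [b42.1, b44.2, t1, t2, h0, h1])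
  have b45 : (-180) + (79) * X 1 - 3838 * ε ≤ X 45 ∧ X 45 ≤ (-180) + (79) * X 1 + 3838 * ε := ⟨by linarith only [s45.1, b42.1, b44.2], by linarith only [s45.2, b42.2, b44.1]⟩
  have r45 : R (X 45) := ⟨by linarith only [b45.1, t1, t2, h0, h1], by linarith only [b45.2, t1, t2, h0, h1]⟩
  have b46 : -1 - 1 * ε ≤ X 46 ∧ X 46 ≤ -1 + 1 * ε := st0 (hs 43 r43 r44 r45) (by linarith only [b43.2, b45.1, t1, t2, h0, h1])
  have r46 : R (X 46) := ⟨by linarith only [b46.1, t1, t2, h0, h1], by linarith only [b46.2, t1, t2, h0, h1]⟩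
  have s47 : X 44 - X 46 - ε ≤ X 47 ∧ X 47 ≤ X 44 - X 46 + ε := st1 (hs 44 r44 r45 r46) (by linarith only [b44.1, b46.2, t1, t2, h0, h1])
  have b47 : (71) + (-30) * X 1 - 1163 * ε ≤ X 47 ∧ X 47 ≤ (71) + (-30) * X 1 + 1163 * ε := ⟨by linarith only [s47.1, b44.1, b46.2], by linarith only [s47.2, b44.2, b46.1]⟩
  have r47 : R (X 47) := ⟨by linarith only [b47.1, t1, t2, h0, h1], by linarith only [b47.2, t1, t2, h0, h1]⟩
  have b48 : -1 - 1 * ε ≤ X 48 ∧ X 48 ≤ -1 + 1 * ε := st0 (hs 45 r45 r46 r47) (by linarith only [b45.2, b47.1, t1, t2, h0, h1])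
  have r48 : R (X 48) := ⟨by linarith only [b48.1, t1, t2, h0, h1], by linarith only [b48.2, t1, t2, h0, h1]⟩
  refine ⟨abs_le.2 ⟨by linarith only [b46.1], by linarith only [b46.2]⟩, abs_le.2 ⟨by linarith only [b48.1], by linarith only [b48.2]⟩,
    abs_le.2 ⟨by linarith only [b47.1, h1], by linarith only [b47.2, h1]⟩, fun j hj => ?_⟩
  interval_cases j <;> assumption

end Pool.Agent.Lib.helper18.Words
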