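import Mathlib
import Pool.Agent.Lib.helper18.Stretch
import Pool.Agent.Lib.helper18.Words

namespace Pool.Agent.Lib.helper18.Chaos

open Set Filter Topology Pool.Agent.Lib.helper18.Stretch Pool.Agent.Lib.helper18.Words

def T (g : ℝ × ℝ × ℝ → ℝ) (s : ℝ × ℝ × ℝ) : ℝ × ℝ × ℝ := (s.2.1, s.2.2, g s)

def len : Bool → ℕ
  | false => 27
  | true => 46

noncomputable def lo : Bool → ℝ
  | false => 223 / 100
  | true => 457 / 200

noncomputable def hi : Bool → ℝ
  | false => 453 / 200
  | true => 917 / 400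

def time (σ : ℕ → Bool) : ℕ → ℕ
  | 0 => 0
  | n + 1 => time σ n + len (σ n)

open Classical in
noncomputable def tau (k : ℕ) : Bool := decide (∃ j, k = 2 ^ j)

noncomputable def sig (n : ℕ) : Bool := if n % 2 = 0 then tau (n / 2) else !tau (n / 2)

lemma time_sig (k : ℕ) : time sig (2 * k) = 73 * k := by
  induction k with
  | zero => rfl
  | succ k ih =>
    have e1 : sig (2 * k) = tau k := by simp [sig]
    have e2 : sig (2 * k + 1) = !tau k := by
      have : (2 * k + 1) / 2 = k := by omega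
      simp [sig, this]
    rw [show 2 * (k + 1) = 2 * k + 1 + 1 by ring, time, time, ih, e1, e2]
    cases tau k <;> simp [len] <;> ring

lemma tau_aper (q N : ℕ) (hq : 1 ≤ q) : ∃ k ≥ N, tau k = true ∧ tau (k + q) = false := by
  refine ⟨2 ^ (N + q), ?_, by simp [tau], ?_⟩
  · exact (Nat.le_add_right N q).trans (Nat.lt_two_pow_self).le
  · simp only [tau, decide_eq_false_iff_not, not_exists]
    intro j hj
    have h1 : q < 2 ^ (N + q) := lt_of_le_of_lt (Nat.le_add_left q N) Nat.lt_two_pow_self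
    have h2 : 2 ^ (N + q) < 2 ^ j := by omega
    have h3 : 2 ^ j < 2 ^ (N + q + 1) := by rw [pow_succ]; omega
    have := (Nat.pow_lt_pow_iff_right (by norm_num)).1 h2
    have := (Nat.pow_lt_pow_iff_right (by norm_num)).1 h3
    omega

theorem chaos_log (ε : ℝ) (h0 : 0 ≤ ε) (h1 : ε ≤ 1 / 10 ^ 7) (g : ℝ × ℝ × ℝ → ℝ)
    (hg : Continuous g)
    (hs : ∀ a b c, R a → R b → R c → |g (a, b, c) - max (-1) (a - c)| ≤ ε) :
    ∃ X : ℕ → ℝ, X 0 = -1 ∧ X 2 = -1 ∧ 0 ≤ X 1 ∧ (∀ n, X (n + 3) = g (X n, X (n + 1), X (n + 2))) ∧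
      (∀ n, R (X n)) ∧
      ∀ q N, 1 ≤ q → ∃ n ≥ N, 457 / 200 ≤ X n ∧ X (n + 73 * q) ≤ 453 / 200 := by
  have hT : Continuous (T g) := by unfold T; fun_prop
  have i1 : ∀ s j, ((T g)^[j + 1] s).1 = ((T g)^[j] s).2.1 := fun s j => by
    rw [Function.iterate_succ_apply']; rfl
  have i2 : ∀ s j, ((T g)^[j + 2] s).1 = ((T g)^[j] s).2.2 := fun s j => by
    rw [Function.iterate_succ_apply', Function.iterate_succ_apply']; rfl
  have i3 : ∀ s j, ((T g)^[j + 3] s).1 =
      g (((T g)^[j] s).1, ((T g)^[j + 1] s).1, ((T g)^[j + 2] s).1) := fun s j => by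
    rw [i1 s j, i2 s j, Function.iterate_succ_apply', Function.iterate_succ_apply',
      Function.iterate_succ_apply']; rfl
  set P : ℝ × ℝ × ℝ → Prop := fun s => |s.1 + 1| ≤ ε ∧ |s.2.2 + 1| ≤ ε with hP
  have word : ∀ (i : Bool) s, P s → s.2.1 ∈ Icc (lo i) (hi i) →
      P ((T g)^[len i] s) ∧
      |((T g)^[len i] s).2.1 - (if i then 71 - 30 * s.2.1 else 9 - 3 * s.2.1)| ≤ 1 / 1000 ∧
      ∀ j < len i, R ((T g)^[j] s).1 := by
    intro i s hp ht
    have hX : ∀ n, R ((T g)^[n] s).1 → R ((T g)^[n + 1] s).1 → R ((T g)^[n + 2] s).1 →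
        |((T g)^[n + 3] s).1 - max (-1) (((T g)^[n] s).1 - ((T g)^[n + 2] s).1)| ≤ ε :=
      fun n a b c => by rw [i3]; exact hs _ _ _ a b c
    cases i
    · obtain ⟨w1, w2, w3, w4⟩ := word0 ε h0 h1 (fun j => ((T g)^[j] s).1) hX hp.1 hp.2 ht.1 ht.2
      exact ⟨⟨w1, by rw [← i2]; exact w2⟩, by rw [← i1]; exact w3, w4⟩
    · obtain ⟨w1, w2, w3, w4⟩ := word1 ε h0 h1 (fun j => ((T g)^[j] s).1) hX hp.1 hp.2 ht.1 ht.2
      exact ⟨⟨w1, by rw [← i2]; exact w2⟩, by rw [← i1]; exact w3, w4⟩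
  have hlo : ∀ i, (223 / 100 : ℝ) ≤ lo i ∧ lo i ≤ hi i ∧ hi i ≤ 917 / 400 := by
    intro i; cases i <;> simp only [lo, hi] <;> norm_num
  obtain ⟨r, hr, h⟩ := infinite_word P (fun s => s.2.1) (by fun_prop) (fun i => (T g)^[len i])
    (fun i => hT.iterate _) (223 / 100) (917 / 400) lo hi hlo
    (fun i x hx ht => (word i x hx ht).1)
    (fun i x hx ht => by
      have := (word i x hx ⟨ht.ge, ht.le.trans (hlo i).2.1⟩).2.1
      rw [abs_le, ht] at this
      cases i <;> simp only [lo] at this <;> norm_num at this ⊢ <;> linarith [this.1])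
    (fun i x hx ht => by
      have := (word i x hx ⟨(hlo i).2.1.trans ht.ge, ht.le⟩).2.1
      rw [abs_le, ht] at this
      cases i <;> simp only [hi] at this <;> norm_num at this ⊢ <;> linarith [this.2])
    sig (fun t => (-1, t, -1)) (223 / 100) (917 / 400) (by fun_prop) (by norm_num)
    (fun r _ => by simp [hP, h0]) le_rfl le_rfl
  set s0 : ℝ × ℝ × ℝ := (-1, r, -1)
  have horb : ∀ k, orb (fun i => (T g)^[len i]) sig k s0 = (T g)^[time sig k] s0 := by
    intro k
    induction k with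
    | zero => rfl
    | succ k ih =>
      show (T g)^[len (sig k)] (orb _ sig k s0) = _
      rw [ih, time, add_comm, Function.iterate_add_apply]
  refine ⟨fun j => ((T g)^[j] s0).1, rfl, rfl, ?_, i3 s0, ?_, ?_⟩
  · show 0 ≤ r
    linarith [hr.1]
  · have : ∀ k n, n < time sig k → R ((T g)^[n] s0).1 := by
      intro k
      induction k with
      | zero => intro n hn; simp [time] at hn
      | succ k ih =>
        intro n hn
        by_cases h' : n < time sig k
        · exact ih n h'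
        · obtain ⟨j, rfl⟩ : ∃ j, n = j + time sig k := ⟨n - time sig k, by omega⟩
          rw [Function.iterate_add_apply, ← horb]
          exact (word _ _ (h k).1 (h k).2).2.2 j (by rw [time] at hn; omega)
    intro n
    exact this (2 * (n + 1)) n (by rw [time_sig]; omega)
  · intro q N hq
    obtain ⟨k, hk, t1, t2⟩ := tau_aper q N hq
    have e1 : sig (2 * k) = true := by simp [sig, t1]
    have e2 : sig (2 * (k + q)) = false := by simp [sig, t2]
    have a1 := (h (2 * k)).2.1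
    have a2 := (h (2 * (k + q))).2.2
    rw [horb, time_sig] at a1 a2
    rw [e1] at a1
    rw [e2] at a2
    refine ⟨73 * k + 1, by omega, ?_, ?_⟩
    · simp only []; rw [i1]; exact a1
    · simp only []
      rw [show 73 * k + 1 + 73 * q = 73 * (k + q) + 1 by ring, i1]; exact a2

open Real in
/-- multiplicative form: `F w v u` is the new term computed from `w = z n`, `v = z (n+1)`,
`u = z (n+2)`. -/
theorem chaos (L : ℝ) (hL : 2 * 10 ^ 7 ≤ L) (F : ℝ → ℝ → ℝ → ℝ)
    (hc : Continuous fun p : ℝ × ℝ × ℝ => F (exp (L * p.1)) (exp (L * p.2.1)) (exp (L * p.2.2)))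
    (hpos : ∀ w v u, 0 < w → 0 < v → 0 < u → 0 < F w v u)
    (hs : ∀ w v u, w ∈ Icc (exp (-2 * L)) (exp (8 * L)) → v ∈ Icc (exp (-2 * L)) (exp (8 * L)) →
      u ∈ Icc (exp (-2 * L)) (exp (8 * L)) →
      max (exp (-L)) (w / u) ≤ 4 * F w v u ∧ F w v u ≤ 4 * max (exp (-L)) (w / u)) :
    ∃ z : ℕ → ℝ, z 0 = exp (-L) ∧ z 2 = exp (-L) ∧ 1 ≤ z 1 ∧ (∀ n, 0 < z n) ∧
      (∀ n, z (n + 3) = F (z n) (z (n + 1)) (z (n + 2))) ∧ (∀ n, z n ≤ exp (8 * L)) ∧
      ∀ q, 1 ≤ q → ¬ Tendsto (fun n => z (n + q) - z n) atTop (𝓝 0) := by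
  have hL0 : 0 < L := by linarith [show (0 : ℝ) < 2 * 10 ^ 7 by norm_num]
  have hR : ∀ a, R a → exp (L * a) ∈ Icc (exp (-2 * L)) (exp (8 * L)) := fun a ha =>
    ⟨exp_le_exp.2 (by nlinarith [ha.1]), exp_le_exp.2 (by nlinarith [ha.2])⟩
  have hlog4 : log 4 ≤ 2 := by
    rw [log_le_iff_le_exp (by norm_num)]
    have := Real.quadratic_le_exp_of_nonneg (x := 2) (by norm_num)
    linarith
  obtain ⟨X, x0, x2, x1, hrec, hRX, hap⟩ := chaos_log (2 / L) (by positivity)
    (by rw [div_le_div_iff₀ hL0 (by norm_num)]; linarith)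
    (fun p => log (F (exp (L * p.1)) (exp (L * p.2.1)) (exp (L * p.2.2))) / L)
    ((hc.log fun p => (hpos _ _ _ (exp_pos _) (exp_pos _) (exp_pos _)).ne').div_const _)
    (fun a b c ha hb hc' => by
      obtain ⟨s1, s2⟩ := hs _ _ _ (hR a ha) (hR b hb) (hR c hc')
      have hF := hpos _ _ _ (exp_pos (L * a)) (exp_pos (L * b)) (exp_pos (L * c))
      have e : max (exp (-L)) (exp (L * a) / exp (L * c)) = exp (L * max (-1) (a - c)) := by
        rw [← exp_sub, ← exp_monotone.map_max, mul_max_of_nonneg _ _ hL0.le]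
        congr 2 <;> ring
      rw [e] at s1 s2
      have l1 := log_le_log (exp_pos _) s1
      have l2 := log_le_log hF s2
      rw [log_mul (by norm_num) hF.ne', log_exp] at l1
      rw [log_mul (by norm_num) (exp_pos _).ne', log_exp] at l2
      simp only []
      rw [div_sub' hL0.ne', abs_div, abs_of_pos hL0]
      gcongr
      rw [abs_le]; constructor <;> linarith)
  refine ⟨fun n => exp (L * X n), by simp [x0], by simp [x2], ?_, fun n => exp_pos _, ?_,
    fun n => (hR _ (hRX n)).2, ?_⟩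
  · exact one_le_exp (by positivity)
  · intro n
    simp only []
    rw [hrec, mul_div_cancel₀ _ hL0.ne', exp_log (hpos _ _ _ (exp_pos _) (exp_pos _) (exp_pos _))]
  · intro q hq hlim
    have hmul : ∀ m, Tendsto (fun n => exp (L * X (n + m * q)) - exp (L * X n)) atTop (𝓝 0) := by
      intro m
      induction m with
      | zero => simp
      | succ m ih =>
        have := (hlim.comp (tendsto_add_atTop_nat (m * q))).add ih
        rw [add_zero] at this
        refine this.congr fun n => ?_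
        simp only [Function.comp]
        rw [show n + (m + 1) * q = n + m * q + q by ring]; ring
    have hd : exp (L * (453 / 200)) - exp (L * (457 / 200)) < 0 := by
      rw [sub_neg, exp_lt_exp]; nlinarith
    obtain ⟨N, hN⟩ := eventually_atTop.1 ((hmul 73).eventually (lt_mem_nhds hd))
    obtain ⟨n, hn, a1, a2⟩ := hap q N hq
    have := hN n hn
    have b1 : exp (L * (457 / 200)) ≤ exp (L * X n) := exp_le_exp.2 (by nlinarith)
    have b2 : exp (L * X (n + 73 * q)) ≤ exp (L * (453 / 200)) := exp_le_exp.2 (by nlinarith)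
    linarith

/-- convergence to a periodic sequence forces the differences to vanish -/
lemma diff_of_per (x p : ℕ → ℝ) (q : ℕ) (hp : ∀ n, p (n + q) = p n)
    (h : Tendsto (fun n => x n - p n) atTop (𝓝 0)) :
    Tendsto (fun n => x (n + q) - x n) atTop (𝓝 0) := by
  have := (h.comp (tendsto_add_atTop_nat q)).sub h
  rw [sub_zero] at this
  refine this.congr fun n => ?_
  simp only [Function.comp]; rw [hp]; ring

end Pool.Agent.Lib.helper18.Chaos
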