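import Mathlib

set_option autoImplicit false
open MeasureTheory ProbabilityTheory Set

namespace Pool.Agent.Lib.helper18.IidUnit

theorem prob_unit : IsProbabilityMeasure (volume.restrict (Icc (0 : ℝ) 1)) := ⟨by simp⟩

/-- Any probability law on a standard Borel space is the image of Lebesgue measure on `[0,1]`. -/
theorem exists_map_eq {Y : Type*} [MeasurableSpace Y] [StandardBorelSpace Y] [Nonempty Y]
    (ν : Measure Y) [IsProbabilityMeasure ν] :
    ∃ θ : ℝ → Y, Measurable θ ∧ (volume.restrict (Icc (0 : ℝ) 1)).map θ = ν := by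
  obtain ⟨f, hf, hm⟩ := ν.exists_measurable_map_eq
  have hp : Measurable (projIcc (0 : ℝ) 1 zero_le_one) := continuous_projIcc.measurable
  refine ⟨f ∘ projIcc 0 1 zero_le_one, hf.comp hp, ?_⟩
  have h1 : MeasurePreserving (Subtype.val : unitInterval → ℝ) volume
      (volume.restrict (Icc (0 : ℝ) 1)) := measurePreserving_subtype_coe measurableSet_Icc
  rw [← h1.map_eq, Measure.map_map (hf.comp hp) measurable_subtype_coe, ← hm]
  congr 1
  funext x
  simp

/-- An i.i.d. sequence with law `ν` on `([0,1], Lebesgue)`. -/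
theorem exists_iid {Y : Type*} [MeasurableSpace Y] [StandardBorelSpace Y] [Nonempty Y]
    (ν : Measure Y) [IsProbabilityMeasure ν] :
    ∃ ξ : ℕ → ℝ → Y, (∀ k, Measurable (ξ k)) ∧ iIndepFun ξ (volume.restrict (Icc (0 : ℝ) 1)) ∧
      ∀ k, (volume.restrict (Icc (0 : ℝ) 1)).map (ξ k) = ν := by
  have := prob_unit
  obtain ⟨θ, h1, h2⟩ := exists_map_eq (Measure.infinitePi fun _ : ℕ => ν)
  have hm : ∀ k, Measurable fun s => θ s k := fun k => (measurable_pi_apply k).comp h1
  have hl : ∀ k, (volume.restrict (Icc (0 : ℝ) 1)).map (fun s => θ s k) = ν := by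
    intro k
    have := Measure.map_map (μ := volume.restrict (Icc (0 : ℝ) 1)) (measurable_pi_apply k) h1
    rw [h2, Measure.infinitePi_map_eval] at this
    exact this.symm
  refine ⟨fun k s => θ s k, hm, ?_, hl⟩
  rw [iIndepFun_iff_map_fun_eq_infinitePi_map hm]
  simp only [hl]
  exact h2

end Pool.Agent.Lib.helper18.IidUnit
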