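import Mathlib

set_option autoImplicit false
open Polynomial

namespace Pool.Agent.Lib.helper18.RootLoc

/-- Newton-type localisation of one root. -/
theorem exists_root_near (q : Polynomial ℂ) (m : ℕ) (hm : q.natDegree ≤ m) (z : ℂ) (r : ℝ)
    (hr : 0 < r) (h : (m : ℝ) * ‖q.eval z‖ < r * ‖q.derivative.eval z‖) :
    ∃ w ∈ q.roots, ‖w - z‖ < r := by
  have hq : q ≠ 0 := by
    rintro rfl
    simp at h
  by_cases h0 : q.eval z = 0
  · exact ⟨z, (mem_roots hq).2 h0, by simpa using hr⟩
  by_contra hc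
  push Not at hc
  have hs : q.Splits := IsAlgClosed.splits q
  have key := hs.eval_derivative_div_eval_of_ne_zero h0
  have hb : ‖(q.roots.map fun w => 1 / (z - w)).sum‖ ≤ (q.roots.card : ℝ) * (1 / r) := by
    refine (norm_multiset_sum_le _).trans ?_
    rw [Multiset.map_map]
    have := Multiset.sum_le_card_nsmul (q.roots.map ((fun x : ℂ => ‖x‖) ∘ fun w => 1 / (z - w)))
      (1 / r) (by
        intro x hx
        obtain ⟨w, hw, rfl⟩ := Multiset.mem_map.1 hx
        simp only [Function.comp, norm_div, norm_one]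
        have := hc w hw
        rw [norm_sub_rev] at this
        exact one_div_le_one_div_of_le hr this)
    simpa [nsmul_eq_mul] using this
  have hcard : (q.roots.card : ℝ) ≤ m := by exact_mod_cast (card_roots' q).trans hm
  rw [← key, norm_div] at hb
  have hpos : 0 < ‖q.eval z‖ := norm_pos_iff.2 h0
  rw [div_le_iff₀ hpos] at hb
  have h1 : r * ‖q.derivative.eval z‖ ≤ (q.roots.card : ℝ) * ‖q.eval z‖ := by
    calc r * ‖q.derivative.eval z‖ ≤ r * ((q.roots.card : ℝ) * (1 / r) * ‖q.eval z‖) :=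
          mul_le_mul_of_nonneg_left hb hr.le
      _ = (q.roots.card : ℝ) * ‖q.eval z‖ := by field_simp
  nlinarith

/-- If `m` pairwise disjoint discs each pass the Newton test, every root lies in one of them. -/
theorem roots_located (q : Polynomial ℂ) (m : ℕ) (hm : q.natDegree ≤ m) (z : Fin m → ℂ) (r : ℝ)
    (hr : 0 < r) (hsep : ∀ i j, i ≠ j → 2 * r ≤ ‖z i - z j‖)
    (h : ∀ i, (m : ℝ) * ‖q.eval (z i)‖ < r * ‖q.derivative.eval (z i)‖) :
    ∀ w ∈ q.roots, ∃ i, ‖w - z i‖ < r := by
  classical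
  choose f hf hfr using fun i => exists_root_near q m hm (z i) r hr (h i)
  have hinj : Function.Injective f := by
    intro i j hij
    by_contra hne
    have h1 := hsep i j hne
    have h2 := hfr i
    have h3 := hfr j
    have : ‖z i - z j‖ ≤ ‖f j - z j‖ + ‖f i - z i‖ := by
      have e : z i - z j = (f j - z j) - (f i - z i) := by rw [hij]; ring
      rw [e]; exact norm_sub_le _ _
    linarith
  have hsub : Finset.univ.image f ⊆ q.roots.toFinset := by
    intro x hx
    obtain ⟨i, -, rfl⟩ := Finset.mem_image.1 hx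
    exact Multiset.mem_toFinset.2 (hf i)
  have hc : q.roots.toFinset.card ≤ (Finset.univ.image f).card := by
    rw [Finset.card_image_of_injective _ hinj]
    simpa using (Multiset.toFinset_card_le _).trans ((card_roots' q).trans hm)
  have heq := Finset.eq_of_subset_of_card_le hsub hc
  intro w hw
  have : w ∈ Finset.univ.image f := heq ▸ Multiset.mem_toFinset.2 hw
  obtain ⟨i, -, rfl⟩ := Finset.mem_image.1 this
  exact ⟨i, hfr i⟩

/-- comparison of norms through squared norms -/
theorem mul_norm_lt (a b : ℝ) (A B : ℂ) (hb : 0 ≤ b)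
    (h : a ^ 2 * (A.re ^ 2 + A.im ^ 2) < b ^ 2 * (B.re ^ 2 + B.im ^ 2)) :
    a * ‖A‖ < b * ‖B‖ := by
  have hA : ‖A‖ ^ 2 = A.re ^ 2 + A.im ^ 2 := by
    rw [Complex.sq_norm, Complex.normSq_apply]; ring
  have hB : ‖B‖ ^ 2 = B.re ^ 2 + B.im ^ 2 := by
    rw [Complex.sq_norm, Complex.normSq_apply]; ring
  refine lt_of_pow_lt_pow_left₀ 2 (by positivity) ?_
  rw [mul_pow, mul_pow, hA, hB]; exact h

end Pool.Agent.Lib.helper18.RootLoc
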