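import Mathlib

namespace Pool.Agent.Lib.helper18.Sand

open Set Filter Topology Real

lemma sand {γ w u N D : ℝ} (hγ : 0 < γ) (hw : 0 < w) (hu : 0 < u) (hN1 : γ * u + w ≤ N)
    (hN2 : N ≤ 2 * (γ * u + w)) (hD1 : u ≤ D) (hD2 : D ≤ 4 * u) :
    max γ (w / u) ≤ 4 * (N / D) ∧ N / D ≤ 4 * max γ (w / u) := by
  have hD : 0 < D := by linarith
  have e : (γ * u + w) / u = γ + w / u := by field_simp
  have h1 := le_max_left γ (w / u)
  have h2 := le_max_right γ (w / u)
  have h3 : 0 < w / u := by positivity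
  constructor
  · have : (γ * u + w) / (4 * u) ≤ N / D := by gcongr; nlinarith
    rw [mul_comm 4 u, ← div_div, e] at this
    exact max_le (by linarith) (by linarith)
  · have : N / D ≤ 2 * (γ * u + w) / u := by gcongr
    rw [mul_div_assoc, e] at this
    linarith

lemma tiny {L y u : ℝ} (hL : 1 ≤ L) (hy : y ≤ exp (8 * L)) (hu : exp (-2 * L) ≤ u) :
    2 * (exp (-20 * L) * y) ≤ exp (-L) * u := by
  have h1 : exp (-20 * L) * y ≤ exp (-12 * L) := by
    calc _ ≤ exp (-20 * L) * exp (8 * L) := by gcongr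
      _ = _ := by rw [← exp_add]; congr 1; ring
  have h2 : exp (-3 * L) ≤ exp (-L) * u := by
    calc _ = exp (-L) * exp (-2 * L) := by rw [← exp_add]; congr 1; ring
      _ ≤ _ := by gcongr
  have h3 : exp (-3 * L) = exp (9 * L) * exp (-12 * L) := by rw [← exp_add]; congr 1; ring
  have h4 := add_one_le_exp (9 * L)
  have h5 := exp_pos (-12 * L)
  nlinarith

lemma tiny1 {L u : ℝ} (hL : 1 ≤ L) (hu : exp (-2 * L) ≤ u) :
    2 * exp (-20 * L) ≤ exp (-L) * u := by
  simpa using tiny (y := 1) hL (one_le_exp (by linarith)) hu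

lemma small {L u : ℝ} (hL : 1 ≤ L) (hu : 0 < u) : exp (-L) * u ≤ u :=
  mul_le_of_le_one_left hu.le (exp_le_one_iff.2 (by linarith))

end Pool.Agent.Lib.helper18.Sand
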