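import Mathlib

namespace Pool.Agent.Lib.helper18.Schur

open Filter Topology Finset

/-- Schur's theorem for absolutely summable families -/
lemma schur1 {ι : Type} (v : ℕ → ι → ℝ) (hv : ∀ n, Summable (v n))
    (h : ∀ ε : ι → ℝ, (∀ k, |ε k| ≤ 1) → Tendsto (fun n => ∑' k, ε k * v n k) atTop (𝓝 0)) :
    Tendsto (fun n => ∑' k, |v n k|) atTop (𝓝 0) := by
  classical
  let sg : Bool → ℝ := fun b => if b then 1 else -1
  have hsg : ∀ b, |sg b| ≤ 1 := fun b => by cases b <;> simp [sg]
  have hb : ∀ n k b, ‖sg b * v n k‖ ≤ |v n k| := fun n k b => by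
    rw [Real.norm_eq_abs, abs_mul]; exact mul_le_of_le_one_left (abs_nonneg _) (hsg b)
  have hc : ∀ n, Continuous fun e : ι → Bool => ∑' k, sg (e k) * v n k := fun n =>
    continuous_tsum (fun k => ((continuous_of_discreteTopology (f := sg)).comp
      (continuous_apply k)).mul continuous_const) (hv n).abs fun k e => hb n k _
  have hk : ∀ k, Tendsto (fun n => |v n k|) atTop (𝓝 0) := fun k => by
    have := (h (Pi.single k 1) fun j => by by_cases hj : j = k <;> simp [hj]).abs
    simp only [abs_zero] at this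
    refine this.congr fun n => ?_
    rw [tsum_eq_single k fun j hj => by simp [hj]]; simp
  refine Metric.tendsto_nhds.2 fun δ hδ => ?_
  obtain ⟨m, e0, he0⟩ := nonempty_interior_of_iUnion_of_closed
    (f := fun m : ℕ => ⋂ n ≥ m, {e : ι → Bool | |∑' k, sg (e k) * v n k| ≤ δ / 4})
    (fun m => isClosed_biInter fun n _ => isClosed_le (hc n).abs continuous_const) (by
      refine Set.eq_univ_of_forall fun e => ?_
      obtain ⟨m, hm⟩ := eventually_atTop.1 (Metric.tendsto_nhds.1 (h _ fun k => hsg (e k)) (δ / 4)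
        (by positivity))
      exact Set.mem_iUnion.2 ⟨m, Set.mem_iInter₂.2 fun n hn => by
        simpa [Real.dist_eq] using (hm n hn).le⟩)
  rw [mem_interior_iff_mem_nhds, nhds_pi, Filter.mem_pi'] at he0
  obtain ⟨I, t, ht, hI⟩ := he0
  have h1 := tendsto_finsetSum I fun k _ => hk k
  simp only [sum_const_zero] at h1
  filter_upwards [eventually_ge_atTop m, h1.eventually (gt_mem_nhds (by positivity : 0 < δ / 4))]
    with n hn h2
  have h3 := Set.mem_iInter₂.1 (hI (a := fun k => if k ∈ I then e0 k else decide (0 ≤ v n k))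
    fun k hk => by simpa [mem_coe.1 hk] using mem_of_mem_nhds (ht k)) n hn
  simp only [Set.mem_ofPred_eq] at h3
  have hs := Summable.of_norm_bounded (hv n).abs fun k =>
    hb n k (if k ∈ I then e0 k else decide (0 ≤ v n k))
  have h4 : ∑' k, |v n k| - ∑' k, sg (if k ∈ I then e0 k else decide (0 ≤ v n k)) * v n k ≤
      ∑ k ∈ I, 2 * |v n k| := by
    rw [← (hv n).abs.tsum_sub hs, tsum_eq_sum (s := I)]
    · refine sum_le_sum fun k _ => ?_
      linarith [abs_le.1 (hb n k (if k ∈ I then e0 k else decide (0 ≤ v n k)))]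
    · intro k hk
      rcases le_or_gt 0 (v n k) with h | h
      · simp [hk, sg, h, abs_of_nonneg h]
      · simp [hk, sg, not_le.2 h, abs_of_neg h]
  rw [← mul_sum] at h4
  rw [Real.dist_eq, sub_zero, abs_of_nonneg (tsum_nonneg fun _ => abs_nonneg _)]
  linarith [abs_le.1 h3]

end Pool.Agent.Lib.helper18.Schur
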